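import Pool.Agent.K4H27.FH.Count

/-!
# Counting tuples determined by few parameters
-/

namespace Pool.Agent.K4H27.FT

open Finset Pool.Agent.H916R2 Pool.Agent.K4H27.FH

lemma countY (k f B c : ℕ) : ∃ C : ℕ, ∀ (m : ℕ) [NeZero m] (p : ℕ) (Y : Set (Fin k → ZMod m)),
    (∀ b ∈ Y, ∃ (E E' : Fin k → ℤ) (w : Fin k → ℕ) (φ : Fin k → Option (Fin c))
      (v : Fin c → ZMod m), (∀ i, E i ≠ 0 ∧ |E i| ≤ B ∧ |E' i| ≤ B ∧ w i < f) ∧
      ∀ i, (E i : ZMod m) * b i = (E' i : ZMod m) * (p : ZMod m) ^ (w i) * (φ i).elim 0 v) →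
    Y.ncard ≤ C * m ^ c := by
  classical
  set EE : Finset (Fin k → ℤ) := Fintype.piFinset fun _ => (Finset.Icc (-(B : ℤ)) B).erase 0
    with hEE
  set EF : Finset (Fin k → ℤ) := Fintype.piFinset fun _ => (Finset.Icc (-(B : ℤ)) B) with hEF
  set WW : Finset (Fin k → ℕ) := Fintype.piFinset fun _ => Finset.range f with hWW
  refine ⟨EE.card * (EF.card * (WW.card *
    ((Finset.univ : Finset (Fin k → Option (Fin c))).card * B ^ k))), ?_⟩
  intro m _ p Y hY
  set T : Finset (Fin k → ZMod m) := EE.biUnion fun E => EF.biUnion fun E' => WW.biUnion fun w =>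
    (Finset.univ : Finset (Fin k → Option (Fin c))).biUnion fun φ =>
      (Finset.univ : Finset (Fin c → ZMod m)).biUnion fun v =>
        Fintype.piFinset fun i => Finset.univ.filter fun x : ZMod m =>
          (E i : ZMod m) * x = (E' i : ZMod m) * (p : ZMod m) ^ (w i) * (φ i).elim 0 v with hT
  have hsub : Y ⊆ (T : Set (Fin k → ZMod m)) := by
    intro b hb
    obtain ⟨E, E', w, φ, v, h1, h2⟩ := hY b hb
    rw [hT, Finset.mem_coe, Finset.mem_biUnion]
    refine ⟨E, ?_, ?_⟩
    · rw [hEE, Fintype.mem_piFinset]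
      intro i
      rw [Finset.mem_erase, Finset.mem_Icc]
      exact ⟨(h1 i).1, abs_le.1 (h1 i).2.1⟩
    rw [Finset.mem_biUnion]
    refine ⟨E', ?_, ?_⟩
    · rw [hEF, Fintype.mem_piFinset]
      intro i
      rw [Finset.mem_Icc]
      exact abs_le.1 (h1 i).2.2.1
    rw [Finset.mem_biUnion]
    refine ⟨w, ?_, ?_⟩
    · rw [hWW, Fintype.mem_piFinset]
      intro i
      rw [Finset.mem_range]
      exact (h1 i).2.2.2
    rw [Finset.mem_biUnion]
    refine ⟨φ, mem_univ _, ?_⟩
    rw [Finset.mem_biUnion]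
    refine ⟨v, mem_univ _, ?_⟩
    rw [Fintype.mem_piFinset]
    intro i
    rw [mem_filter]
    exact ⟨mem_univ _, h2 i⟩
  have hcard : T.card ≤ EE.card * (EF.card * (WW.card *
      ((Finset.univ : Finset (Fin k → Option (Fin c))).card * (m ^ c * B ^ k)))) := by
    refine Finset.card_biUnion_le_card_mul _ _ _ fun E hE => ?_
    refine Finset.card_biUnion_le_card_mul _ _ _ fun E' _ => ?_
    refine Finset.card_biUnion_le_card_mul _ _ _ fun w _ => ?_
    refine Finset.card_biUnion_le_card_mul _ _ _ fun φ _ => ?_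
    have h0 : m ^ c = (Finset.univ : Finset (Fin c → ZMod m)).card := by
      rw [Finset.card_univ, Fintype.card_fun, ZMod.card, Fintype.card_fin]
    rw [h0]
    refine Finset.card_biUnion_le_card_mul _ _ _ fun v _ => ?_
    rw [Fintype.card_piFinset]
    calc ∏ i : Fin k, (Finset.univ.filter fun x : ZMod m =>
          (E i : ZMod m) * x = (E' i : ZMod m) * (p : ZMod m) ^ (w i) * (φ i).elim 0 v).card ≤
          ∏ _i : Fin k, B := by
          refine Finset.prod_le_prod' fun i _ => ?_
          rw [hEE, Fintype.mem_piFinset] at hE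
          have h1 := hE i
          rw [Finset.mem_erase, Finset.mem_Icc] at h1
          refine (card_solutions_le (E i) h1.1 _).trans ?_
          have h2 : ((E i).natAbs : ℤ) ≤ B := by
            rw [← Int.abs_eq_natAbs]; exact abs_le.2 h1.2
          exact_mod_cast h2
      _ = B ^ k := by rw [Finset.prod_const, Finset.card_univ, Fintype.card_fin]
  calc Y.ncard ≤ (T : Set (Fin k → ZMod m)).ncard := Set.ncard_le_ncard hsub T.finite_toSet
    _ = T.card := Set.ncard_coe_finset T
    _ ≤ _ := hcard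
    _ = _ := by ring

end Pool.Agent.K4H27.FT
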