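import Pool.Agent.K4H27.FT.Struct
import Pool.Agent.K4H27.FT.CountY
import Pool.Agent.H916Y.Main

/-!
# The components of a Tate tuple
-/

namespace Pool.Agent.K4H27.FT

open Finset Pool.Agent.H916R2 Pool.Agent.K4H27.FH Pool.Agent.H916T

/-- the tuple of all conjugates `p ^ j * a i` -/
def conj (p f : ℕ) {k m : ℕ} (a : Fin k → ZMod m) : Fin f × Fin k → ZMod m :=
  fun x => (p : ZMod m) ^ (x.1 : ℕ) * a x.2

/-- two indices are joined if some of their conjugates are in the same class -/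
def joined {f k m : ℕ} (J : Finset (Fin f × Fin k)) (g : Fin f × Fin k → ℕ × ZMod m) :
    SimpleGraph (Fin k) :=
  SimpleGraph.fromRel fun i i' => ∃ j j' : Fin f, (j, i) ∈ J ∧ (j', i') ∈ J ∧ g (j, i) = g (j', i')

variable {p f k m L : ℕ} [NeZero m] {a : Fin k → ZMod m} {J : Finset (Fin f × Fin k)}
  {e : Fin f × Fin k → ℤ} {g : Fin f × Fin k → ℕ × ZMod m}

lemma joined_adj {i i' : Fin k} (h : (joined J g).Adj i i') :
    ∃ j j' : Fin f, (j, i) ∈ J ∧ (j', i') ∈ J ∧ g (j, i) = g (j', i') := by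
  unfold joined at h
  rw [SimpleGraph.fromRel_adj] at h
  rcases h with ⟨_, ⟨j, j', h1, h2, h3⟩ | ⟨j, j', h1, h2, h3⟩⟩
  · exact ⟨j, j', h1, h2, h3⟩
  · exact ⟨j', j, h2, h1, h3.symm⟩

lemma adj_relation (hpf : (p : ZMod m) ^ f = 1) (hB : Blocks2 L (conj p f a) Finset.univ J e g)
    {i i' : Fin k} (h : (joined J g).Adj i i') :
    ∃ (E E' : ℤ) (w : ℕ), E ≠ 0 ∧ E' ≠ 0 ∧ |E| ≤ L ∧ |E'| ≤ L ∧
      (E : ZMod m) * a i = (E' : ZMod m) * (p : ZMod m) ^ w * a i' := by
  obtain ⟨j, j', h1, h2, h3⟩ := joined_adj h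
  refine ⟨e (j, i), e (j', i'), j' + (f - j), hB.e0 _ h1, hB.e0 _ h2, hB.eL _ h1, hB.eL _ h2, ?_⟩
  have h4 : (e (j, i) : ZMod m) * conj p f a (j, i) =
      (e (j', i') : ZMod m) * conj p f a (j', i') := by
    rw [← hB.g2 _ h1, ← hB.g2 _ h2, h3]
  unfold conj at h4
  simp only at h4
  have h5 : (p : ZMod m) ^ (f - (j : ℕ)) * (p : ZMod m) ^ (j : ℕ) = 1 := by
    rw [← pow_add, Nat.sub_add_cancel j.2.le, hpf]
  rw [pow_add]
  linear_combination (p : ZMod m) ^ (f - (j : ℕ)) * h4 - (e (j, i) : ZMod m) * a i * h5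

lemma walk_relation (hL : 0 < L) (hpf : (p : ZMod m) ^ f = 1)
    (hB : Blocks2 L (conj p f a) Finset.univ J e g) {i i' : Fin k}
    (w : (joined J g).Walk i i') :
    ∃ (E E' : ℤ) (n : ℕ), E ≠ 0 ∧ E' ≠ 0 ∧ |E| ≤ (L : ℤ) ^ w.length ∧ |E'| ≤ (L : ℤ) ^ w.length ∧
      (E : ZMod m) * a i = (E' : ZMod m) * (p : ZMod m) ^ n * a i' := by
  induction w with
  | nil => exact ⟨1, 1, 0, one_ne_zero, one_ne_zero, by simp, by simp, by simp⟩
  | cons h w ih =>
    obtain ⟨E, E', n, h1, h2, h3, h4, h5⟩ := ih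
    obtain ⟨E1, E1', n1, h1', h2', h3', h4', h5'⟩ := adj_relation hpf hB h
    refine ⟨E1 * E, E1' * E', n1 + n, mul_ne_zero h1' h1, mul_ne_zero h2' h2, ?_, ?_, ?_⟩
    · rw [abs_mul, SimpleGraph.Walk.length_cons, pow_succ, mul_comm ((L : ℤ) ^ _)]
      exact mul_le_mul h3' h3 (abs_nonneg _) (by positivity)
    · rw [abs_mul, SimpleGraph.Walk.length_cons, pow_succ, mul_comm ((L : ℤ) ^ _)]
      exact mul_le_mul h4' h4 (abs_nonneg _) (by positivity)
    · rw [pow_add]
      push_cast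
      linear_combination (E : ZMod m) * h5' + (E1' : ZMod m) * (p : ZMod m) ^ n1 * h5

lemma reachable_relation (hL : 0 < L) (hf : 0 < f) (hpf : (p : ZMod m) ^ f = 1)
    (hB : Blocks2 L (conj p f a) Finset.univ J e g) {i i' : Fin k}
    (h : (joined J g).Reachable i i') :
    ∃ (E E' : ℤ) (n : ℕ), E ≠ 0 ∧ E' ≠ 0 ∧ |E| ≤ (L : ℤ) ^ k ∧ |E'| ≤ (L : ℤ) ^ k ∧ n < f ∧
      (E : ZMod m) * a i = (E' : ZMod m) * (p : ZMod m) ^ n * a i' := by
  classical
  obtain ⟨w⟩ := h
  obtain ⟨E, E', n, h1, h2, h3, h4, h5⟩ := walk_relation hL hpf hB w.toPath.1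
  have h6 : w.toPath.1.length ≤ k := by
    have h7 := w.toPath.2.length_lt
    rw [Fintype.card_fin] at h7
    exact h7.le
  have h8 : (L : ℤ) ^ w.toPath.1.length ≤ (L : ℤ) ^ k :=
    pow_le_pow_right₀ (by exact_mod_cast hL) h6
  refine ⟨E, E', n % f, h1, h2, h3.trans h8, h4.trans h8, Nat.mod_lt _ hf, ?_⟩
  rw [h5]
  have h9 : (p : ZMod m) ^ n = (p : ZMod m) ^ (n % f) := by
    conv_lhs => rw [← Nat.div_add_mod n f, pow_add, pow_mul, hpf, one_pow, one_mul]
  rw [h9]

lemma sum_pow_saw (hf : 0 < f) (hpf : (p : ZMod m) ^ f = 1) : ∃ q : ℕ, 0 < q ∧ ∀ x : ZMod m,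
    ∑ j : Fin f, saw ((p : ZMod m) ^ (j : ℕ) * x) = q * W p x := by
  obtain ⟨q, hq⟩ := orderOf_dvd_of_pow_eq_one hpf
  refine ⟨q, Nat.pos_of_ne_zero (by rintro rfl; omega), fun x => ?_⟩
  rw [Fin.sum_univ_eq_sum_range (fun j => saw ((p : ZMod m) ^ j * x)) f, hq]
  clear hq
  induction q with
  | zero => simp
  | succ q ih =>
    rw [Nat.mul_succ, Finset.sum_range_add, ih]
    have h1 : ∀ j, (p : ZMod m) ^ (orderOf (p : ZMod m) * q + j) * x =
        (p : ZMod m) ^ j * x := by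
      intro j
      rw [pow_add, pow_mul, pow_orderOf_eq_one, one_pow, one_mul]
    simp only [h1]
    unfold W
    push_cast
    ring

/-- The indices whose component contains an entry of bounded order. -/
def BadIdx (J : Finset (Fin f × Fin k)) (g : Fin f × Fin k → ℕ × ZMod m) (i : Fin k) : Prop :=
  ∃ i', (joined J g).Reachable i i' ∧ ∃ j, (j, i') ∉ J

lemma comp_sum (hL : 0 < L) (hf : 0 < f) (hpf : (p : ZMod m) ^ f = 1)
    (hB : Blocks2 L (conj p f a) Finset.univ J e g) (K : Finset (Fin k))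
    (hK : ∀ i ∈ K, ¬ BadIdx J g i)
    (hcl : ∀ i ∈ K, ∀ i', (joined J g).Reachable i i' → i' ∈ K) (t : (ZMod m)ˣ) :
    ∑ i ∈ K, W p ((t : ZMod m) * a i) = 0 := by
  classical
  have h1 : ∀ (Q : Type) [AddCommGroup Q] (c : ZMod (L * m) → Q), OddDist c →
      ∑ x ∈ (Finset.univ : Finset (Fin f)) ×ˢ K, c (iota L (conj p f a x)) = 0 := by
    intro Q _ c hc
    refine hB.sum_eq_zero _ ?_ ?_ hc
    · rintro ⟨j, i⟩ hx
      rw [Finset.mem_product] at hx
      by_contra hcon
      exact hK i hx.2 ⟨i, SimpleGraph.Reachable.refl i, j, hcon⟩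
    · rintro ⟨j, i⟩ hx ⟨j', i'⟩ hx' hg
      rw [Finset.mem_product] at hx ⊢
      refine ⟨Finset.mem_univ _, ?_⟩
      by_cases hii : i = i'
      · subst hii; exact hx.2
      · refine hcl i hx.2 i' (SimpleGraph.Adj.reachable ?_)
        unfold joined
        rw [SimpleGraph.fromRel_adj]
        refine ⟨hii, Or.inl ⟨j, j', ?_, hx', hg.symm⟩⟩
        by_contra hcon
        exact hK i hx.2 ⟨i, SimpleGraph.Reachable.refl i, j, hcon⟩
  have h2 := saw_of_dist hL (conj p f a) _ h1 t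
  rw [Finset.sum_product_right] at h2
  obtain ⟨q, hq, hsum⟩ := sum_pow_saw hf hpf
  have h3 : ∀ i ∈ K, ∑ j : Fin f, saw ((t : ZMod m) * conj p f a (j, i)) =
      q * W p ((t : ZMod m) * a i) := by
    intro i _
    rw [← hsum]
    refine Finset.sum_congr rfl fun j _ => ?_
    unfold conj
    congr 1
    ring
  rw [Finset.sum_congr rfl h3, ← Finset.mul_sum] at h2
  rcases mul_eq_zero.1 h2 with h4 | h4
  · exfalso
    have h5 : q = 0 := by exact_mod_cast h4
    omega
  · exact h4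

/-- Nonzero residues all of whose Stickelberger sums are trivial. -/
def NSS (p : ℕ) {m : ℕ} (x : ZMod m) : Prop := x ≠ 0 ∧ ∀ t : (ZMod m)ˣ, W p ((t : ZMod m) * x) = 0

/-- The indices which are a component of their own. -/
def Single (J : Finset (Fin f × Fin k)) (g : Fin f × Fin k → ℕ × ZMod m) (i : Fin k) : Prop :=
  ¬ BadIdx J g i ∧ ∀ i', (joined J g).Reachable i i' → i' = i

lemma single_nss (hL : 0 < L) (hf : 0 < f) (hpf : (p : ZMod m) ^ f = 1) (ha : ∀ i, a i ≠ 0)
    (hB : Blocks2 L (conj p f a) Finset.univ J e g) {i : Fin k} (h : Single J g i) :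
    NSS p (a i) := by
  refine ⟨ha i, fun t => ?_⟩
  have h1 := comp_sum hL hf hpf hB {i} (fun i' hi' => by
      rw [Finset.mem_singleton.1 hi']; exact h.1) (fun i' hi' i'' hr => by
      rw [Finset.mem_singleton.1 hi'] at hr
      rw [h.2 i'' hr]
      exact Finset.mem_singleton_self i) t
  rwa [Finset.sum_singleton] at h1

lemma badIdx_of_reachable {i i' : Fin k} (h : (joined J g).Reachable i i')
    (hi : BadIdx J g i') : BadIdx J g i := by
  obtain ⟨i'', h1, h2⟩ := hi
  exact ⟨i'', h.trans h1, h2⟩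

lemma pair_linked (hL : 0 < L) (hf : 0 < f) (hpf : (p : ZMod m) ^ f = 1) (ha : ∀ i, a i ≠ 0)
    (hB : Blocks2 L (conj p f a) Finset.univ J e g) {i i' : Fin k} (hii : i ≠ i')
    (hbad : ¬ BadIdx J g i) (hr : (joined J g).Reachable i i')
    (h2 : ∀ i'', (joined J g).Reachable i i'' → i'' = i ∨ i'' = i') :
    Relation.EqvGen (H916Z.Link p) (a i) (a i') := by
  have h1 : ∀ t : (ZMod m)ˣ, W p ((t : ZMod m) * a i) + W p ((t : ZMod m) * a i') = 0 := by
    intro t
    have h3 := comp_sum hL hf hpf hB {i, i'} (fun x hx => by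
        rw [Finset.mem_insert, Finset.mem_singleton] at hx
        rcases hx with rfl | rfl
        · exact hbad
        · exact fun h => hbad (badIdx_of_reachable hr h)) (fun x hx y hy => by
        rw [Finset.mem_insert, Finset.mem_singleton] at hx ⊢
        rcases hx with rfl | rfl
        · exact h2 y hy
        · exact h2 y (hr.trans hy)) t
    rwa [Finset.sum_pair hii] at h3
  -- a i is linked with - a i', and this with a i'
  refine Relation.EqvGen.trans _ (-(a i')) _ (Relation.EqvGen.rel _ _ ?_)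
    (Relation.EqvGen.rel _ _ ?_)
  · refine ⟨ha i, neg_ne_zero.2 (ha i'), Or.inr (Or.inr fun t => ?_)⟩
    rw [mul_neg, W_neg]
    have := h1 t
    omega
  · refine ⟨neg_ne_zero.2 (ha i'), ha i', Or.inl ?_⟩
    rw [addOrderOf_neg]

lemma even_card_of_involution {α : Type*} [DecidableEq α] (Y : Finset α) (π : α → α)
    (h1 : ∀ i ∈ Y, π i ∈ Y) (h2 : ∀ i ∈ Y, π i ≠ i) (h3 : ∀ i ∈ Y, π (π i) = i) :
    Even Y.card := by
  have h4 : ∑ _i ∈ Y, (1 : ZMod 2) = 0 := by
    refine Finset.sum_involution (fun i _ => π i) ?_ ?_ ?_ ?_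
    · intro i _
      decide
    · intro i hi _
      exact h2 i hi
    · intro i hi
      exact h1 i hi
    · intro i hi
      exact h3 i hi
  rw [Finset.sum_const, nsmul_eq_mul, mul_one] at h4
  exact (ZMod.natCast_eq_zero_iff_even).1 h4

lemma nss_linked {x y : ZMod m} (hx : NSS p x) (hy : NSS p y) : H916Z.Link p x y :=
  ⟨hx.1, hy.1, Or.inr (Or.inr fun t => by rw [hx.2 t, hy.2 t])⟩

open scoped Classical in
/-- **Parity for components with at most two elements.** -/
lemma parity_small (hL : 0 < L) (hf : 0 < f) (hpf : (p : ZMod m) ^ f = 1) (ha : ∀ i, a i ≠ 0)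
    (hk : Even k) (hB : Blocks2 L (conj p f a) Finset.univ J e g) (hbad : ∀ i, ¬ BadIdx J g i)
    (h2 : ∀ i, ∃ i1, ∀ i', (joined J g).Reachable i i' → i' = i ∨ i' = i1) (x : ZMod m) :
    Even (((Finset.univ : Finset (Fin k)).val.map a).countP
      (fun b => Relation.EqvGen (H916Z.Link p) x b)) := by
  set P : Fin k → Prop := fun i => ∃ i', (joined J g).Reachable i i' ∧ i' ≠ i with hP
  set π : Fin k → Fin k := fun i => if h : P i then h.choose else i with hπ
  have hπr : ∀ i, P i → (joined J g).Reachable i (π i) ∧ π i ≠ i := by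
    intro i hi
    have h3 : π i = hi.choose := by rw [hπ]; exact dif_pos hi
    rw [h3]
    exact hi.choose_spec
  have hcomp : ∀ i, P i → ∀ i', (joined J g).Reachable i i' → i' = i ∨ i' = π i := by
    intro i hi i' hr
    obtain ⟨i1, h3⟩ := h2 i
    have h4 := hπr i hi
    rcases h3 _ h4.1 with h5 | h5
    · exact absurd h5 h4.2
    · rw [h5]; exact h3 i' hr
  have hPπ : ∀ i, P i → P (π i) := fun i hi =>
    ⟨i, (hπr i hi).1.symm, (hπr i hi).2.symm⟩
  have hππ : ∀ i, P i → π (π i) = i := by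
    intro i hi
    have h3 := hπr (π i) (hPπ i hi)
    rcases hcomp i hi _ ((hπr i hi).1.trans h3.1) with h4 | h4
    · exact h4
    · exact absurd h4 h3.2
  have hlink : ∀ i, P i → Relation.EqvGen (H916Z.Link p) (a i) (a (π i)) := fun i hi =>
    pair_linked hL hf hpf ha hB (hπr i hi).2.symm (hbad i) (hπr i hi).1 (hcomp i hi)
  have hsing : ∀ i, ¬ P i → NSS p (a i) := by
    intro i hi
    refine single_nss hL hf hpf ha hB ⟨hbad i, fun i' hr => ?_⟩
    by_contra hcon
    exact hi ⟨i', hr, hcon⟩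
  rw [Multiset.countP_map]
  have hcard : Multiset.card ((Finset.univ : Finset (Fin k)).val.filter
      fun i => Relation.EqvGen (H916Z.Link p) x (a i)) =
      (Finset.univ.filter fun i => Relation.EqvGen (H916Z.Link p) x (a i)).card := rfl
  rw [hcard, ← Finset.card_filter_add_card_filter_not (p := P)]
  refine Even.add ?_ ?_
  · refine even_card_of_involution _ π ?_ ?_ ?_
    · intro i hi
      rw [mem_filter, mem_filter] at hi ⊢
      exact ⟨⟨mem_univ _, hi.1.2.trans _ _ _ (hlink i hi.2)⟩, hPπ i hi.2⟩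
    · intro i hi
      exact (hπr i (mem_filter.1 hi).2).2
    · intro i hi
      exact hππ i (mem_filter.1 hi).2
  · rcases (Finset.filter (fun i => ¬ P i) (Finset.univ.filter fun i =>
        Relation.EqvGen (H916Z.Link p) x (a i))).eq_empty_or_nonempty with h3 | ⟨i0, hi0⟩
    · rw [h3]; simp
    · rw [mem_filter, mem_filter] at hi0
      have h4 : (Finset.filter (fun i => ¬ P i) (Finset.univ.filter fun i =>
          Relation.EqvGen (H916Z.Link p) x (a i))) = Finset.univ.filter (fun i => ¬ P i) := by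
        ext i
        rw [mem_filter, mem_filter, mem_filter]
        constructor
        · rintro ⟨_, h5⟩; exact ⟨mem_univ _, h5⟩
        · rintro ⟨_, h5⟩
          exact ⟨⟨mem_univ _, hi0.1.2.trans _ _ _
            (Relation.EqvGen.rel _ _ (nss_linked (hsing i0 hi0.2) (hsing i h5)))⟩, h5⟩
      rw [h4]
      have h5 : Even (Finset.univ.filter P).card := by
        refine even_card_of_involution _ π ?_ ?_ ?_
        · intro i hi
          rw [mem_filter] at hi ⊢
          exact ⟨mem_univ _, hPπ i hi.2⟩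
        · intro i hi
          exact (hπr i (mem_filter.1 hi).2).2
        · intro i hi
          exact hππ i (mem_filter.1 hi).2
      have h6 := Finset.card_filter_add_card_filter_not (s := (Finset.univ : Finset (Fin k))) (p := P)
      rw [Finset.card_univ, Fintype.card_fin] at h6
      obtain ⟨u, hu⟩ := hk
      obtain ⟨v, hv⟩ := h5
      exact ⟨u - v, by omega⟩

end Pool.Agent.K4H27.FT
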