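import Pool.Agent.K4H27.FT.Exc

/-!
# Degrees prime to the constant
-/

namespace Pool.Agent.K4H27.FT

open Finset Pool.Agent.H916R2 Pool.Agent.K4H27.FH Pool.Agent.H916T

variable {p f k m L : ℕ} [NeZero m] {a : Fin k → ZMod m}

/-- Odd functions sum to zero over a tuple with a block structure. -/
lemma cop_sum {ι : Type} [Fintype ι] [DecidableEq ι] {A : ι → ZMod m} {J : Finset ι}
    {e : ι → ℤ} {g : ι → ℕ × ZMod m}
    (hM : Nat.Coprime m L.factorial) (hL : 0 < L) (hB : Blocks2 L A Finset.univ J e g)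
    (hA : ∀ x, A x ≠ 0) (F : ZMod m → ℤ) (hF : ∀ z, F (-z) = - F z) : ∑ x, F (A x) = 0 := by
  classical
  have hcop : ∀ n : ℕ, 0 < n → n ≤ L → IsUnit (n : ZMod m) := by
    intro n hn hnL
    rw [ZMod.isUnit_iff_coprime]
    exact (hM.coprime_dvd_right (Nat.dvd_factorial hn hnL)).symm
  have hJ : J = Finset.univ := by
    rw [Finset.eq_univ_iff_forall]
    intro x
    by_contra hx
    have h1 := hB.tors x (mem_univ _) hx
    rw [nsmul_eq_mul] at h1
    exact hA x ((hcop L hL le_rfl).mul_right_eq_zero.1 h1)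
  have hmL : Nat.Coprime m L := hM.coprime_dvd_right (Nat.dvd_factorial hL le_rfl)
  rw [← hJ]
  rw [← Finset.sum_fiberwise_of_maps_to (t := J.image fun x => (g x, (e x).natAbs))
    (g := fun x => (g x, (e x).natAbs)) (fun x hx => Finset.mem_image_of_mem _ hx)]
  refine Finset.sum_eq_zero ?_
  rintro ⟨v, n⟩ hvn
  have h2 : ∀ x ∈ J.filter (fun x => (g x, (e x).natAbs) = (v, n)),
      F (A x) = ((SignType.sign (e x) : ℤ)) * F (((n : ZMod m))⁻¹ * v.2) := by
    intro x hx
    rw [mem_filter, Prod.mk.injEq] at hx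
    obtain ⟨hxJ, h3, h4⟩ := hx
    have h5 := hB.g2 x hxJ
    have h6 := hB.eL x hxJ
    have h7 := hB.e0 x hxJ
    have hn0 : 0 < n := by rw [← h4]; exact Int.natAbs_pos.2 h7
    have hnL : n ≤ L := by
      rw [← h4]
      rw [Int.abs_eq_natAbs] at h6
      exact_mod_cast h6
    have hu := hcop n hn0 hnL
    have h8 : ((n : ZMod m))⁻¹ * (n : ZMod m) = 1 := by
      rw [mul_comm]; exact ZMod.coe_mul_inv_eq_one n ((ZMod.isUnit_iff_coprime n m).1 hu)
    rw [h3] at h5
    rcases lt_or_gt_of_ne h7 with hneg | hpos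
    · have h9 : e x = -(n : ℤ) := by omega
      have h10 : A x = -(((n : ZMod m))⁻¹ * v.2) := by
        rw [h5, h9]
        push_cast
        linear_combination -(A x) * h8
      rw [sign_neg hneg, h10, hF, SignType.coe_neg_one, neg_one_mul]
    · have h9 : e x = (n : ℤ) := by omega
      have h10 : A x = ((n : ZMod m))⁻¹ * v.2 := by
        rw [h5, h9]
        push_cast
        linear_combination -(A x) * h8
      rw [sign_pos hpos, h10, SignType.coe_one, one_mul]
  rw [Finset.sum_congr rfl h2, ← Finset.sum_mul]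
  have h3 := hB.cop hmL v n
  have h4 : J.filter (fun x => (g x, (e x).natAbs) = (v, n)) =
      J.filter (fun x => g x = v ∧ (e x).natAbs = n) := by
    refine Finset.filter_congr fun x _ => ?_
    rw [Prod.mk.injEq]
  rw [h4, h3, zero_mul]

/-- A predicate stable under negation and multiplication by powers of `p`. -/
def Stable (p : ℕ) {m : ℕ} (P : ZMod m → Prop) : Prop :=
  (∀ z, P z → P (-z)) ∧ ∀ (j : ℕ) z, P z ↔ P ((p : ZMod m) ^ j * z)

open scoped Classical in
lemma even_one (hM : Nat.Coprime m L.factorial) (hL : 0 < L) (hf : 0 < f)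
    {J : Finset (Fin f × Fin k)}
    {e : Fin f × Fin k → ℤ} {g : Fin f × Fin k → ℕ × ZMod m}
    (hB : Blocks2 L (conj p f a) Finset.univ J e g)
    (hA : ∀ x, conj p f a x ≠ 0) {P : ZMod m → Prop} (hP : Stable p P) (t : (ZMod m)ˣ) :
    Even (Finset.univ.filter fun i => P (a i) ∧ W p ((t : ZMod m) * a i) ≠ 0).card := by
  have hPn : ∀ z, P (-z) ↔ P z := fun z => ⟨fun h => by simpa using hP.1 _ h, hP.1 z⟩
  set F : ZMod m → ℤ := fun z => if P z then (SignType.sign (W p ((t : ZMod m) * z)) : ℤ) else 0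
    with hF
  have h1 := cop_sum hM hL hB hA F (by
    intro z
    rw [hF]
    simp only [hPn z, mul_neg, W_neg]
    split_ifs
    · rw [Left.sign_neg]
      simp
    · rw [neg_zero])
  rw [Fintype.sum_prod_type] at h1
  have h2 : ∀ (j : Fin f) (i : Fin k), F (conj p f a (j, i)) = F (a i) := by
    intro j i
    unfold conj
    rw [hF]
    simp only
    have h3 : (t : ZMod m) * ((p : ZMod m) ^ (j : ℕ) * a i) =
        (p : ZMod m) ^ (j : ℕ) * ((t : ZMod m) * a i) := by ring
    rw [h3, W_pow_mul]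
    simp only [← hP.2 (j : ℕ) (a i)]
  rw [Finset.sum_congr rfl fun j _ => Finset.sum_congr rfl fun i _ => h2 j i, Finset.sum_const,
    Finset.card_univ, Fintype.card_fin, nsmul_eq_mul] at h1
  have h3 : ∑ i, F (a i) = 0 := by
    rcases mul_eq_zero.1 h1 with h | h
    · exfalso
      have : f = 0 := by exact_mod_cast h
      omega
    · exact h
  have h4 : ((∑ i, F (a i) : ℤ) : ZMod 2) = 0 := by rw [h3]; rfl
  rw [← ZMod.natCast_eq_zero_iff_even, ← h4, Finset.card_filter]
  push_cast
  refine Finset.sum_congr rfl fun i _ => ?_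
  rw [hF]
  simp only
  by_cases h5 : P (a i)
  · rcases lt_trichotomy (W p ((t : ZMod m) * a i)) 0 with h6 | h6 | h6
    · rw [if_pos ⟨h5, h6.ne⟩, if_pos h5, sign_neg h6]
      rfl
    · rw [if_neg (fun h => h.2 h6), if_pos h5, h6, sign_zero]
      rfl
    · rw [if_pos ⟨h5, h6.ne'⟩, if_pos h5, sign_pos h6]
      rfl
  · rw [if_neg (fun h => h5 h.1), if_neg h5]
    rfl

open scoped Classical in
lemma even_many (hM : Nat.Coprime m L.factorial) (hL : 0 < L) (hf : 0 < f)
    {J : Finset (Fin f × Fin k)}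
    {e : Fin f × Fin k → ℤ} {g : Fin f × Fin k → ℕ × ZMod m}
    (hB : Blocks2 L (conj p f a) Finset.univ J e g)
    (hA : ∀ x, conj p f a x ≠ 0) {P : ZMod m → Prop} (hP : Stable p P)
    (T : Finset (ZMod m)ˣ) :
    Even (Finset.univ.filter fun i => P (a i) ∧ ¬ ∀ t ∈ T, W p ((t : ZMod m) * a i) = 0).card := by
  induction T using Finset.induction_on with
  | empty => simp
  | insert t T ht ih =>
    have hst : Stable p (fun z => P z ∧ ∀ t ∈ T, W p ((t : ZMod m) * z) = 0) := by
      refine ⟨fun z hz => ⟨hP.1 z hz.1, fun t ht => ?_⟩, fun j z => ?_⟩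
      · rw [mul_neg, W_neg, hz.2 t ht, neg_zero]
      · refine and_congr (hP.2 j z) (forall_congr' fun t => forall_congr' fun _ => ?_)
        have h3 : (t : ZMod m) * ((p : ZMod m) ^ (j : ℕ) * z) =
            (p : ZMod m) ^ (j : ℕ) * ((t : ZMod m) * z) := by ring
        rw [h3, W_pow_mul]
    have h1 := even_one hM hL hf hB hA hst t
    have h2 : (Finset.univ.filter fun i => P (a i) ∧
        ¬ ∀ t' ∈ insert t T, W p ((t' : ZMod m) * a i) = 0) =
        (Finset.univ.filter fun i => P (a i) ∧ ¬ ∀ t ∈ T, W p ((t : ZMod m) * a i) = 0) ∪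
        (Finset.univ.filter fun i => (P (a i) ∧ ∀ t ∈ T, W p ((t : ZMod m) * a i) = 0) ∧
          W p ((t : ZMod m) * a i) ≠ 0) := by
      ext i
      simp only [mem_union, mem_filter, mem_univ, true_and, Finset.forall_mem_insert]
      tauto
    rw [h2, Finset.card_union_of_disjoint]
    · have h1' : Even (Finset.univ.filter fun i =>
          (P (a i) ∧ ∀ t ∈ T, W p ((t : ZMod m) * a i) = 0) ∧
            W p ((t : ZMod m) * a i) ≠ 0).card := by convert h1
      exact ih.add h1'
    · rw [Finset.disjoint_left]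
      intro i h3 h4
      rw [mem_filter] at h3 h4
      exact h3.2.2 h4.2.1.2

lemma stable_link (hpm : p.Coprime m) (x : ZMod m) :
    Stable p (fun z => Relation.EqvGen (H916Z.Link p) x z) := by
  have horder : ∀ (j : ℕ) (z : ZMod m), z ≠ 0 →
      Relation.EqvGen (H916Z.Link p) z ((p : ZMod m) ^ j * z) := by
    intro j z hz
    have hu := (isUnit_p hpm).pow j
    refine Relation.EqvGen.rel _ _ ⟨hz, fun h => hz (hu.mul_right_eq_zero.1 h),
      Or.inr (Or.inr fun t => ?_)⟩
    have h3 : (t : ZMod m) * ((p : ZMod m) ^ (j : ℕ) * z) =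
        (p : ZMod m) ^ (j : ℕ) * ((t : ZMod m) * z) := by ring
    rw [h3, W_pow_mul]
  constructor
  · intro z hz
    by_cases h0 : z = 0
    · rw [h0, neg_zero, ← h0]; exact hz
    · refine hz.trans _ _ _ (Relation.EqvGen.rel _ _ ⟨h0, neg_ne_zero.2 h0, Or.inl ?_⟩)
      rw [addOrderOf_neg]
  · intro j z
    by_cases h0 : z = 0
    · rw [h0, mul_zero]
    · exact ⟨fun h => h.trans _ _ _ (horder j z h0),
        fun h => h.trans _ _ _ ((horder j z h0).symm _ _)⟩

open scoped Classical in
/-- **Parity for degrees prime to the constant.** -/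
lemma parity_cop (hM : Nat.Coprime m L.factorial) (hL : 0 < L) (hf : 0 < f)
    (hpm : p.Coprime m) (hk : Even k) (ha : ∀ i, a i ≠ 0)
    {J : Finset (Fin f × Fin k)}
    {e : Fin f × Fin k → ℤ} {g : Fin f × Fin k → ℕ × ZMod m}
    (hB : Blocks2 L (conj p f a) Finset.univ J e g)
    (hA : ∀ x, conj p f a x ≠ 0) (x : ZMod m) :
    Even (((Finset.univ : Finset (Fin k)).val.map a).countP
      (fun b => Relation.EqvGen (H916Z.Link p) x b)) := by
  set P : ZMod m → Prop := fun z => Relation.EqvGen (H916Z.Link p) x z with hP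
  have hst : Stable p P := stable_link hpm x
  rw [Multiset.countP_map]
  have hcard : Multiset.card ((Finset.univ : Finset (Fin k)).val.filter fun i => P (a i)) =
      (Finset.univ.filter fun i => P (a i)).card := rfl
  rw [hcard]
  set Z : Fin k → Prop := fun i => ∀ t ∈ (Finset.univ : Finset (ZMod m)ˣ),
    W p ((t : ZMod m) * a i) = 0 with hZ
  have hnss : ∀ i, Z i → NSS p (a i) := fun i hi => ⟨ha i, fun t => hi t (mem_univ _)⟩
  have h1 := even_many hM hL hf hB hA hst Finset.univ
  have h2 := even_many hM hL hf hB hA (P := fun _ => True)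
    ⟨fun _ _ => trivial, fun _ _ => Iff.rfl⟩ Finset.univ
  simp only [true_and] at h2
  rw [← Finset.card_filter_add_card_filter_not (p := Z)]
  refine Even.add ?_ ?_
  · rcases (Finset.filter Z (Finset.univ.filter fun i => P (a i))).eq_empty_or_nonempty with
      h3 | ⟨i0, hi0⟩
    · rw [h3]; simp
    · rw [mem_filter, mem_filter] at hi0
      have h4 : (Finset.filter Z (Finset.univ.filter fun i => P (a i))) =
          Finset.univ.filter Z := by
        ext i
        rw [mem_filter, mem_filter, mem_filter]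
        constructor
        · rintro ⟨_, h5⟩; exact ⟨mem_univ _, h5⟩
        · rintro ⟨_, h5⟩
          exact ⟨⟨mem_univ _, hi0.1.2.trans _ _ _
            (Relation.EqvGen.rel _ _ (nss_linked (hnss i0 hi0.2) (hnss i h5)))⟩, h5⟩
      rw [h4]
      have h6 := Finset.card_filter_add_card_filter_not (s := (Finset.univ : Finset (Fin k)))
        (p := Z)
      rw [Finset.card_univ, Fintype.card_fin] at h6
      obtain ⟨u, hu⟩ := hk
      have h7 : Even (Finset.univ.filter fun i => ¬ Z i).card := by convert h2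
      obtain ⟨v, hv⟩ := h7
      exact ⟨u - v, by omega⟩
  · rw [Finset.filter_filter]
    convert h1

/-- **All Tate tuples of a degree prime to the constant are algebraic.** -/
theorem alg_of_coprime (hp : p.Prime) (hL : 0 < L) (hf : 0 < f) (hG : Good2 f k L)
    (hpm : p.Coprime m) (hpf : (p : ZMod m) ^ f = 1) (hM : Nat.Coprime m L.factorial)
    (hs : IsTate p m ((Finset.univ : Finset (Fin k)).val.map a)) :
    Alg p m ((Finset.univ : Finset (Fin k)).val.map a) := by
  classical
  obtain ⟨ha, hk, _, hW⟩ := tate_facts hpm hs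
  obtain ⟨hA0, hAW⟩ := conj_facts hpm hf hpf ha hW
  obtain ⟨J, e, g, hB⟩ := hG m (conj p f a) Finset.univ (fun x _ => hA0 x) hAW
  exact alg_of_parity hp (NeZero.pos m) hpm hs
    (fun x => parity_cop hM hL hf hpm hk ha hB hA0 x)

end Pool.Agent.K4H27.FT
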