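import Mathlib

/-!
# Additive energies
-/

namespace Pool.Agent.K4H27.FT

open Finset

variable {G : Type} [AddCommGroup G] [Fintype G] [DecidableEq G]

/-- the tuples of elements of `N` with sum `v` -/
def tup (N : Finset G) (n : ℕ) (v : G) : Finset (Fin n → G) :=
  (Fintype.piFinset fun _ : Fin n => N).filter fun x => ∑ i, x i = v

/-- the number of pairs of tuples with the same sum -/
def energy (N : Finset G) (n : ℕ) : ℕ := ∑ v, (tup N n v).card ^ 2

lemma mem_tup {N : Finset G} {n : ℕ} {v : G} {x : Fin n → G} :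
    x ∈ tup N n v ↔ (∀ i, x i ∈ N) ∧ ∑ i, x i = v := by
  unfold tup
  rw [mem_filter, Fintype.mem_piFinset]

lemma card_tup_add_le (N : Finset G) (α β : ℕ) (v : G) :
    (tup N (α + β) v).card ≤ ∑ u, (tup N α u).card * (tup N β (v - u)).card := by
  have h1 : (tup N (α + β) v).card ≤
      (Finset.univ.sigma fun u : G => tup N α u ×ˢ tup N β (v - u)).card := by
    refine Finset.card_le_card_of_injOn (fun x => ⟨∑ i, x (Fin.castAdd β i),
      (fun i => x (Fin.castAdd β i), fun i => x (Fin.natAdd α i))⟩) ?_ ?_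
    · intro x hx
      rw [Finset.mem_coe, mem_tup] at hx
      rw [Finset.mem_coe, Finset.mem_sigma]
      refine ⟨mem_univ _, ?_⟩
      rw [Finset.mem_product, mem_tup, mem_tup]
      refine ⟨⟨fun i => hx.1 _, rfl⟩, fun i => hx.1 _, ?_⟩
      rw [← hx.2, Fin.sum_univ_add]
      simp
    · intro x _ y _ hxy
      simp only [Sigma.mk.injEq] at hxy
      have h2 := eq_of_heq hxy.2
      rw [Prod.mk.injEq] at h2
      funext i
      refine Fin.addCases (fun i => congrFun h2.1 i) (fun i => congrFun h2.2 i) i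
  rw [Finset.card_sigma] at h1
  refine h1.trans (le_of_eq ?_)
  exact Finset.sum_congr rfl fun u _ => Finset.card_product _ _

lemma card_tup_sq_le (N : Finset G) (α β : ℕ) (v : G) :
    (tup N (α + β) v).card ^ 2 ≤ energy N α * energy N β := by
  have h1 := card_tup_add_le N α β v
  have h2 := Finset.sum_mul_sq_le_sq_mul_sq (Finset.univ : Finset G)
    (fun u => (tup N α u).card) (fun u => (tup N β (v - u)).card)
  have h3 : ∑ u, (tup N β (v - u)).card ^ 2 = energy N β := by
    unfold energy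
    exact Fintype.sum_equiv (Equiv.subLeft v) _ _ fun u => rfl
  rw [h3] at h2
  exact (Nat.pow_le_pow_left h1 2).trans h2

/-- pairs of tuples with the same sum -/
def pairs (N : Finset G) (n : ℕ) : Finset ((Fin n → G) × (Fin n → G)) :=
  ((Fintype.piFinset fun _ : Fin n => N) ×ˢ (Fintype.piFinset fun _ : Fin n => N)).filter
    fun x => ∑ i, x.1 i = ∑ i, x.2 i

lemma card_pairs (N : Finset G) (n : ℕ) : (pairs N n).card = energy N n := by
  unfold energy
  rw [Finset.card_eq_sum_card_fiberwise (f := fun x => ∑ i, x.1 i) (t := Finset.univ)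
    (fun x _ => Finset.mem_univ _)]
  refine Finset.sum_congr rfl fun v _ => ?_
  rw [sq, ← Finset.card_product]
  congr 1
  ext ⟨x, y⟩
  unfold pairs
  rw [mem_filter, mem_filter, Finset.mem_product, Finset.mem_product, mem_tup, mem_tup,
    Fintype.mem_piFinset, Fintype.mem_piFinset]
  constructor
  · rintro ⟨⟨⟨h1, h2⟩, h3⟩, h4⟩
    exact ⟨⟨h1, h4⟩, h2, by rw [← h3]; exact h4⟩
  · rintro ⟨⟨h1, h4⟩, h2, h5⟩
    exact ⟨⟨⟨h1, h2⟩, h4.trans h5.symm⟩, h4⟩

end Pool.Agent.K4H27.FT
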