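import Pool.Agent.K4H27.FT.Comp
import Pool.Agent.K4H27.FT.Energy

/-!
# Exceptional Tate tuples have few classes
-/

namespace Pool.Agent.K4H27.FT

open Finset Pool.Agent.H916R2 Pool.Agent.K4H27.FH Pool.Agent.H916T

/-- The class of `s` is algebraic by the known constructions, after raising the degree. -/
def Alg (p m : ℕ) (s : Multiset (ZMod m)) : Prop :=
  ∃ N : ℕ, 0 < N ∧ p.Coprime N ∧
    H916T.Generated (N * m)
      (fun t => SurfaceTate p (N * m) t ∨ ∃ q : ℕ, q.Prime ∧ q ∣ N * m ∧ Standard q (N * m) t)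
      (s.map fun a => ((N * a.val : ℕ) : ZMod (N * m)))

open scoped Classical in
lemma alg_of_parity {p m : ℕ} (hp : p.Prime) (hm : 0 < m) (hpm : p.Coprime m)
    {s : Multiset (ZMod m)} (hs : IsTate p m s)
    (hpar : ∀ a : ZMod m, Even (s.countP (fun b => Relation.EqvGen (H916Z.Link p) a b))) :
    Alg p m s := by
  by_cases hne : s = 0
  · refine ⟨p + 1, by omega, by simp, ?_⟩
    rw [hne, Multiset.map_zero]
    have h5 : Fact (1 < (p + 1) * m) := ⟨by
      have := hp.two_le
      nlinarith⟩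
    refine H916T.Generated.cancel 1 0 ?_
    exact H916T.Generated.pair (1 : ZMod ((p + 1) * m)) one_ne_zero
  · obtain ⟨N, hN, hpN, H⟩ := H916Y.parity_main hp hm hpm hs hne hpar
    exact ⟨N, hN, hpN, H (N * m) rfl⟩

/-- The number `L` has the property of the structure theorem. -/
def Good2 (f k L : ℕ) : Prop := ∀ (m : ℕ) [NeZero m] (A : Fin f × Fin k → ZMod m)
    (I : Finset (Fin f × Fin k)), (∀ i ∈ I, A i ≠ 0) →
    (∀ t : (ZMod m)ˣ, ∑ i ∈ I, saw ((t : ZMod m) * A i) = 0) →
    ∃ (J : Finset (Fin f × Fin k)) (e : Fin f × Fin k → ℤ) (g : Fin f × Fin k → ℕ × ZMod m),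
      Blocks2 L A I J e g

/-- tuples given by few parameters -/
def Few (k f B c p m : ℕ) : Set (Fin k → ZMod m) :=
  {b | ∃ (E E' : Fin k → ℤ) (w : Fin k → ℕ) (φ : Fin k → Option (Fin c))
      (v : Fin c → ZMod m), (∀ i, E i ≠ 0 ∧ |E i| ≤ B ∧ |E' i| ≤ B ∧ w i < f) ∧
      ∀ i, (E i : ZMod m) * b i = (E' i : ZMod m) * (p : ZMod m) ^ (w i) * (φ i).elim 0 v}

variable {p f k m L : ℕ} [NeZero m] {a : Fin k → ZMod m}

lemma sum_entries {R : Type*} [AddCommMonoid R] (F : ZMod m → R) :
    (((Finset.univ : Finset (Fin k)).val.map a).map F).sum = ∑ i, F (a i) := by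
  rw [Multiset.map_map]; rfl

lemma tate_facts (hpm : p.Coprime m) (hs : IsTate p m ((Finset.univ : Finset (Fin k)).val.map a)) :
    (∀ i, a i ≠ 0) ∧ Even k ∧ ∑ i, a i = 0 ∧ ∀ t : (ZMod m)ˣ, ∑ i, W p ((t : ZMod m) * a i) = 0 := by
  refine ⟨?_, ?_, ?_, ?_⟩
  · intro i h0
    apply hs.1
    rw [← h0]
    exact Multiset.mem_map_of_mem a (Finset.mem_univ i)
  · have h1 := hs.2.1
    rw [Multiset.card_map] at h1
    have h2 : Multiset.card (Finset.univ : Finset (Fin k)).val = k := by
      change (Finset.univ : Finset (Fin k)).card = k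
      rw [Finset.card_univ, Fintype.card_fin]
    rwa [h2] at h1
  · exact hs.2.2.1
  · intro t
    have h1 := hs.W_sum hpm t
    rw [sum_entries] at h1
    exact h1

lemma conj_facts (hpm : p.Coprime m) (hf : 0 < f) (hpf : (p : ZMod m) ^ f = 1)
    (ha : ∀ i, a i ≠ 0) (hW : ∀ t : (ZMod m)ˣ, ∑ i, W p ((t : ZMod m) * a i) = 0) :
    (∀ x, conj p f a x ≠ 0) ∧
      ∀ t : (ZMod m)ˣ, ∑ x, saw ((t : ZMod m) * conj p f a x) = 0 := by
  constructor
  · rintro ⟨j, i⟩ h
    unfold conj at h
    exact ha i ((((isUnit_p hpm).pow (j : ℕ)).mul_right_eq_zero).1 h)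
  · intro t
    obtain ⟨q, _, hsum⟩ := sum_pow_saw hf hpf
    rw [Fintype.sum_prod_type_right]
    have h3 : ∀ i, ∑ j : Fin f, saw ((t : ZMod m) * conj p f a (j, i)) =
        q * W p ((t : ZMod m) * a i) := by
      intro i
      rw [← hsum]
      refine Finset.sum_congr rfl fun j _ => ?_
      unfold conj
      congr 1
      ring
    rw [Finset.sum_congr rfl fun i _ => h3 i, ← Finset.mul_sum, hW t, mul_zero]

lemma single_relation (hf : 0 < f) {J : Finset (Fin f × Fin k)} {e : Fin f × Fin k → ℤ}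
    {g : Fin f × Fin k → ℕ × ZMod m} (hB : Blocks2 L (conj p f a) Finset.univ J e g) {i : Fin k}
    (h : Single J g i) : ∃ (E E' : ℤ) (w : ℕ), 0 < E ∧ 0 < E' ∧ E ≤ L ∧ E' ≤ L ∧
      (E : ZMod m) * a i = -((E' : ZMod m) * (p : ZMod m) ^ w * a i) := by
  set j0 : Fin f := ⟨0, hf⟩ with hj0
  have h1 : (j0, i) ∈ J := by
    by_contra hcon
    exact h.1 ⟨i, SimpleGraph.Reachable.refl i, j0, hcon⟩
  obtain ⟨⟨j, i'⟩, h2, h3, h4⟩ := hB.opp _ h1
  have hii : i' = i := by
    by_contra hne
    refine hne (h.2 i' (SimpleGraph.Adj.reachable ?_))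
    unfold joined
    rw [SimpleGraph.fromRel_adj]
    exact ⟨fun h => hne h.symm, Or.inl ⟨j0, j, h1, h2, h3.symm⟩⟩
  subst hii
  have h5 := hB.g2 _ h1
  have h6 := hB.g2 _ h2
  rw [h3, h5] at h6
  unfold conj at h6
  simp only [hj0, pow_zero, one_mul] at h6
  have h7 := hB.eL _ h1
  have h8 := hB.eL _ h2
  rcases lt_or_gt_of_ne (hB.e0 _ h1) with hneg | hpos
  · rw [sign_neg hneg] at h4
    have h9 : 0 < e (j, i') := by
      rw [← sign_eq_one_iff, h4]; rfl
    refine ⟨-e (j0, i'), e (j, i'), j, by omega, h9, by rw [← abs_of_neg hneg]; exact h7,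
      (le_abs_self _).trans h8, ?_⟩
    push_cast
    linear_combination -h6
  · rw [sign_pos hpos] at h4
    have h9 : e (j, i') < 0 := by
      rw [← sign_eq_neg_one_iff, h4]
    refine ⟨e (j0, i'), -e (j, i'), j, hpos, by omega, (le_abs_self _).trans h7, by
      rw [← abs_of_neg h9]; exact h8, ?_⟩
    push_cast
    linear_combination h6

/-- **An exceptional tuple has few classes.** -/
theorem few_classes (hp : p.Prime) (hL : 0 < L) (hf : 0 < f) (hG : Good2 f k L)
    (hpm : p.Coprime m) (hpf : (p : ZMod m) ^ f = 1)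
    (hs : IsTate p m ((Finset.univ : Finset (Fin k)).val.map a))
    (hexc : ¬ Alg p m ((Finset.univ : Finset (Fin k)).val.map a)) :
    ∃ (S : Finset (Fin k)) (c : ℕ), 2 * c + 1 + S.card ≤ k ∧ (∀ i ∈ S, NSS p (a i)) ∧
      (∀ i ∈ S, ∃ (E E' : ℤ) (w : ℕ), 0 < E ∧ 0 < E' ∧ E ≤ L ∧ E' ≤ L ∧
        (E : ZMod m) * a i = -((E' : ZMod m) * (p : ZMod m) ^ w * a i)) ∧
      (fun i => if i ∈ S then 0 else a i) ∈ Few k f (L ^ (k + 1)) c p m := by
  classical
  have hm : 0 < m := NeZero.pos m
  obtain ⟨ha, hk, _, hW⟩ := tate_facts hpm hs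
  obtain ⟨hA0, hAW⟩ := conj_facts hpm hf hpf ha hW
  obtain ⟨J, e, g, hB⟩ := hG m (conj p f a) Finset.univ (fun x _ => hA0 x) hAW
  set S : Finset (Fin k) := Finset.univ.filter (fun i => Single J g i) with hS
  set Q : Finset (Fin k) := Finset.univ.filter (fun i => ¬ BadIdx J g i ∧ ¬ Single J g i) with hQ
  set cc : Fin k → (joined J g).ConnectedComponent := fun i =>
    (joined J g).connectedComponentMk i with hcc
  have hccr : ∀ i i', cc i = cc i' ↔ (joined J g).Reachable i i' := fun i i' =>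
    SimpleGraph.ConnectedComponent.eq
  have hQtwo : ∀ i ∈ Q, ∃ j ∈ Q, j ≠ i ∧ cc j = cc i := by
    intro i hi
    rw [hQ, mem_filter] at hi
    have h1 : ∃ i', (joined J g).Reachable i i' ∧ i' ≠ i := by
      by_contra hcon
      push Not at hcon
      exact hi.2.2 ⟨hi.2.1, hcon⟩
    obtain ⟨i', h2, h3⟩ := h1
    refine ⟨i', ?_, h3, (hccr _ _).2 h2.symm⟩
    rw [hQ, mem_filter]
    refine ⟨mem_univ _, fun h => hi.2.1 (badIdx_of_reachable h2 h), fun h => ?_⟩
    exact h3 (h.2 i h2.symm).symm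
  have hcount : 2 * (Q.image cc).card + 1 + S.card ≤ k := by
    have h1 := two_mul_card_image_le Q cc hQtwo
    have hdisj : Disjoint Q S := by
      rw [Finset.disjoint_left]
      intro i h1 h2
      rw [hQ, mem_filter] at h1
      rw [hS, mem_filter] at h2
      exact h1.2.2 h2.2
    have h2 : (Q ∪ S).card ≤ k := by
      have := Finset.card_le_univ (Q ∪ S)
      rwa [Fintype.card_fin] at this
    rw [Finset.card_union_of_disjoint hdisj] at h2
    by_contra hcon
    have h3 : 2 * (Q.image cc).card = Q.card := by omega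
    have h4 : (Q ∪ S).card = k := by
      rw [Finset.card_union_of_disjoint hdisj]; omega
    have h5 : Q ∪ S = Finset.univ := by
      apply Finset.eq_univ_of_card
      rw [Fintype.card_fin, h4]
    have hbad : ∀ i, ¬ BadIdx J g i := by
      intro i hi
      have h6 : i ∈ Q ∪ S := by rw [h5]; exact mem_univ i
      rcases Finset.mem_union.1 h6 with h7 | h7
      · rw [hQ, mem_filter] at h7; exact h7.2.1 hi
      · rw [hS, mem_filter] at h7; exact h7.2.1 hi
    apply hexc
    refine alg_of_parity hp hm hpm hs ?_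
    intro x
    refine parity_small hL hf hpf ha hk hB hbad ?_ x
    intro i
    by_cases hsi : Single J g i
    · exact ⟨i, fun i' hr => Or.inl (hsi.2 i' hr)⟩
    · have hiQ : i ∈ Q := by rw [hQ, mem_filter]; exact ⟨mem_univ _, hbad i, hsi⟩
      obtain ⟨i1, h6, h7, h8⟩ := hQtwo i hiQ
      refine ⟨i1, fun i' hr => ?_⟩
      by_contra hcon2
      push Not at hcon2
      have hi'Q : i' ∈ Q := by
        rw [hQ, mem_filter]
        refine ⟨mem_univ _, hbad i', fun h => ?_⟩
        exact hcon2.1 (h.2 i hr.symm).symm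
      have h9 := two_mul_card_image_lt Q cc hQtwo ⟨i, hiQ, i1, h6, i', hi'Q, h7, hcon2.1,
        hcon2.2, h8, (hccr _ _).2 hr.symm⟩
      omega
  refine ⟨S, (Q.image cc).card, hcount, ?_, ?_, ?_⟩
  · intro i hi
    rw [hS, mem_filter] at hi
    exact single_nss hL hf hpf ha hB hi.2
  · intro i hi
    rw [hS, mem_filter] at hi
    exact single_relation hf hB hi.2
  · set Eq := (Q.image cc).equivFin with hEq
    set v : Fin (Q.image cc).card → ZMod m := fun j =>
      a (Quot.out (Eq.symm j : {x // x ∈ Q.image cc}).1) with hv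
    set φ : Fin k → Option (Fin (Q.image cc).card) := fun i => if h : i ∈ Q then
      some (Eq ⟨cc i, Finset.mem_image_of_mem cc h⟩) else none with hφ
    have hL1 : (1 : ℤ) ≤ L := by exact_mod_cast hL
    have hLk : (L : ℤ) ^ k ≤ ((L ^ (k + 1) : ℕ) : ℤ) := by
      push_cast
      exact pow_le_pow_right₀ hL1 (Nat.le_succ k)
    have hrel : ∀ i, ∃ (E E' : ℤ) (w : ℕ), (E ≠ 0 ∧ |E| ≤ ((L ^ (k + 1) : ℕ) : ℤ) ∧
        |E'| ≤ ((L ^ (k + 1) : ℕ) : ℤ) ∧ w < f) ∧
        (E : ZMod m) * (if i ∈ S then 0 else a i) =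
          (E' : ZMod m) * (p : ZMod m) ^ w * (φ i).elim 0 v := by
      intro i
      by_cases hiS : i ∈ S
      · refine ⟨1, 0, 0, ⟨one_ne_zero, ?_, ?_, hf⟩, ?_⟩
        · rw [abs_one]
          exact (one_le_pow₀ hL1).trans hLk
        · rw [abs_zero]; positivity
        · rw [if_pos hiS]; simp
      · rw [if_neg hiS]
        by_cases hiQ : i ∈ Q
        · have h1 : φ i = some (Eq ⟨cc i, Finset.mem_image_of_mem cc hiQ⟩) := by
            rw [hφ]; exact dif_pos hiQ
          have h2 : (φ i).elim 0 v = a (Quot.out (cc i)) := by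
            rw [h1]
            change v _ = _
            rw [hv]
            simp only [Equiv.symm_apply_apply]
          have h3 : (joined J g).Reachable i (Quot.out (cc i)) := by
            rw [← hccr]
            exact (Quot.out_eq (cc i)).symm
          obtain ⟨E, E', n, h4, h5, h6, h7, h8, h9⟩ := reachable_relation hL hf hpf hB h3
          exact ⟨E, E', n, ⟨h4, h6.trans hLk, h7.trans hLk, h8⟩, by rw [h2]; exact h9⟩
        · have h1 : φ i = none := by rw [hφ]; exact dif_neg hiQ
          have hbi : BadIdx J g i := by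
            by_contra hcon
            apply hiQ
            rw [hQ, mem_filter]
            refine ⟨mem_univ _, hcon, fun h => hiS ?_⟩
            rw [hS, mem_filter]
            exact ⟨mem_univ _, h⟩
          obtain ⟨i', hr, j, hj⟩ := hbi
          obtain ⟨E, E', n, h4, h5, h6, h7, h8, h9⟩ := reachable_relation hL hf hpf hB hr
          have h10 := hB.tors (j, i') (mem_univ _) hj
          have h11 : (L : ZMod m) * a i' = 0 := by
            unfold conj at h10
            rw [nsmul_eq_mul] at h10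
            simp only at h10
            have h12 : (p : ZMod m) ^ (j : ℕ) * ((L : ZMod m) * a i') = 0 := by
              linear_combination h10
            exact (((isUnit_p hpm).pow (j : ℕ)).mul_right_eq_zero).1 h12
          refine ⟨L * E, 0, 0, ⟨mul_ne_zero (by omega) h4, ?_, ?_, hf⟩, ?_⟩
          · rw [abs_mul, Nat.abs_cast, pow_succ, mul_comm]
            push_cast
            exact mul_le_mul_of_nonneg_right h6 (by positivity)
          · rw [abs_zero]; positivity
          · push_cast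
            linear_combination (L : ZMod m) * h9 +
              (E' : ZMod m) * (p : ZMod m) ^ n * h11
    choose E E' w h1 h2 using hrel
    exact ⟨E, E', w, φ, v, h1, h2⟩

end Pool.Agent.K4H27.FT
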