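import Pool.Agent.K4H27.FT.Cop

/-!
# Exceptional Tate tuples are rare
-/

namespace Pool.Agent.K4H27.FT

open Finset Pool.Agent.H916R2 Pool.Agent.K4H27.FH Pool.Agent.H916T

/-- the multiset of the entries of a tuple -/
def ent {k m : ℕ} (a : Fin k → ZMod m) : Multiset (ZMod m) :=
  (Finset.univ : Finset (Fin k)).val.map a

/-- the Tate tuples with `k` entries -/
def tateSet (p m k : ℕ) : Set (Fin k → ZMod m) := {a | IsTate p m (ent a)}

/-- the exceptional Tate tuples with `k` entries -/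
def excSet (p m k : ℕ) : Set (Fin k → ZMod m) := {a | IsTate p m (ent a) ∧ ¬ Alg p m (ent a)}

variable {p f k m L : ℕ} [NeZero m]

lemma nss_neg {x : ZMod m} (h : NSS p x) : NSS p (-x) :=
  ⟨neg_ne_zero.2 h.1, fun t => by rw [mul_neg, W_neg, h.2 t, neg_zero]⟩

open scoped Classical in
/-- the set of nonzero residues with trivial Stickelberger sums -/
noncomputable def nssSet (p m : ℕ) [NeZero m] : Finset (ZMod m) :=
  Finset.univ.filter fun x => NSS p x

lemma mem_nssSet {x : ZMod m} : x ∈ nssSet p m ↔ NSS p x := by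
  unfold nssSet; simp

lemma isTate_tuple (hpm : p.Coprime m) {a : Fin k → ZMod m} (ha : ∀ i, a i ≠ 0) (hk : Even k)
    (hsum : ∑ i, a i = 0) (hW : ∀ t : (ZMod m)ˣ, ∑ i, W p ((t : ZMod m) * a i) = 0) :
    IsTate p m (ent a) := by
  unfold ent
  refine isTate_of_W hpm ?_ ?_ ?_ ?_
  · intro h
    obtain ⟨i, _, hi⟩ := Multiset.mem_map.1 h
    exact ha i hi
  · rw [Multiset.card_map]
    have h2 : Multiset.card (Finset.univ : Finset (Fin k)).val = k := by
      change (Finset.univ : Finset (Fin k)).card = k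
      rw [Finset.card_univ, Fintype.card_fin]
    rwa [h2]
  · exact hsum
  · intro t
    rw [sum_entries]
    exact hW t

/-- There are many Tate tuples. -/
lemma tate_lower (hpm : p.Coprime m) {h n : ℕ} (hn : n ≤ h) :
    (m - 1) ^ (h - n) * energy (nssSet p m) n ≤ (tateSet p m (2 * h)).ncard := by
  classical
  have he : Fintype.card ((Fin (h - n) ⊕ Fin (h - n)) ⊕ (Fin n ⊕ Fin n)) =
      Fintype.card (Fin (2 * h)) := by
    simp only [Fintype.card_sum, Fintype.card_fin]; omega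
  set Eq := Fintype.equivOfCardEq he with hEq
  set NZ : Finset (ZMod m) := Finset.univ.erase 0 with hNZ
  set F0 : (Fin (h - n) → ZMod m) × ((Fin n → ZMod m) × (Fin n → ZMod m)) →
      ((Fin (h - n) ⊕ Fin (h - n)) ⊕ (Fin n ⊕ Fin n)) → ZMod m :=
    fun x => Sum.elim (Sum.elim x.1 (fun j => - x.1 j)) (Sum.elim x.2.1 (fun j => - x.2.2 j))
    with hF0
  set F : (Fin (h - n) → ZMod m) × ((Fin n → ZMod m) × (Fin n → ZMod m)) →
      Fin (2 * h) → ZMod m := fun x i => F0 x (Eq.symm i) with hF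
  have hinj : Function.Injective F := by
    intro x y hxy
    have h1 : ∀ z, F0 x z = F0 y z := by
      intro z
      have := congrFun hxy (Eq z)
      simpa [hF] using this
    refine Prod.ext ?_ (Prod.ext ?_ ?_)
    · funext j; exact h1 (Sum.inl (Sum.inl j))
    · funext j; exact h1 (Sum.inr (Sum.inl j))
    · funext j; exact neg_injective (h1 (Sum.inr (Sum.inr j)))
  have hcard : ((Fintype.piFinset fun _ : Fin (h - n) => NZ) ×ˢ pairs (nssSet p m) n).card =
      (m - 1) ^ (h - n) * energy (nssSet p m) n := by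
    rw [Finset.card_product, Fintype.card_piFinset, card_pairs, Finset.prod_const,
      Finset.card_univ, Fintype.card_fin, hNZ, Finset.card_erase_of_mem (mem_univ _),
      Finset.card_univ, ZMod.card]
  rw [← hcard, ← Finset.card_image_of_injective _ hinj, ← Set.ncard_coe_finset]
  refine Set.ncard_le_ncard ?_ (Set.toFinite _)
  intro a ha
  rw [Finset.mem_coe, Finset.mem_image] at ha
  obtain ⟨⟨b, x, y⟩, hx, rfl⟩ := ha
  unfold pairs at hx
  rw [Finset.mem_product, Fintype.mem_piFinset, mem_filter, Finset.mem_product,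
    Fintype.mem_piFinset, Fintype.mem_piFinset] at hx
  obtain ⟨hb, ⟨hx, hy⟩, hxy⟩ := hx
  simp only at hb hx hy hxy
  have hsumF : ∀ {R : Type} [AddCommMonoid R] (G : ZMod m → R),
      ∑ i, G (F (b, x, y) i) = (∑ j, G (b j) + ∑ j, G (-b j)) +
        (∑ j, G (x j) + ∑ j, G (-y j)) := by
    intro R _ G
    have h1 : ∑ i, G (F (b, x, y) i) = ∑ z, G (F0 (b, x, y) z) := by
      refine (Fintype.sum_equiv Eq _ _ fun z => ?_).symm
      rw [hF]
      simp
    rw [h1, Fintype.sum_sum_type, Fintype.sum_sum_type, Fintype.sum_sum_type]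
    rfl
  refine isTate_tuple hpm ?_ ⟨h, by ring⟩ ?_ ?_
  · intro i
    have h1 : ∀ z, F0 (b, x, y) z ≠ 0 := by
      rintro ((j | j) | (j | j))
      · exact (Finset.mem_erase.1 (hb j)).1
      · exact neg_ne_zero.2 (Finset.mem_erase.1 (hb j)).1
      · exact (mem_nssSet.1 (hx j)).1
      · exact neg_ne_zero.2 (mem_nssSet.1 (hy j)).1
    exact h1 _
  · have h1 := hsumF (fun z => z)
    rw [h1, Finset.sum_neg_distrib, Finset.sum_neg_distrib, hxy]
    ring
  · intro t
    have h1 := hsumF (fun z => W p ((t : ZMod m) * z))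
    rw [h1, Finset.sum_eq_zero fun j _ => (mem_nssSet.1 (hx j)).2 t,
      Finset.sum_eq_zero (f := fun j => W p ((t : ZMod m) * -y j))
        fun j _ => (nss_neg (mem_nssSet.1 (hy j))).2 t]
    simp only [mul_neg, W_neg, Finset.sum_neg_distrib]
    ring

/-- the tuples with entries of trivial Stickelberger sum at the indices in `S`, and otherwise given
by few parameters -/
def bad (S : Finset (Fin k)) (f B c p m : ℕ) : Set (Fin k → ZMod m) :=
  {a | (∀ i ∈ S, NSS p (a i)) ∧ ∑ i, a i = 0 ∧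
    (fun i => if i ∈ S then 0 else a i) ∈ Few k f B c p m}

lemma bad_le (S : Finset (Fin k)) (B c : ℕ) : ∃ v : ZMod m, (bad S f B c p m).ncard ≤
    (tup (nssSet p m) S.card v).card * (Few k f B c p m).ncard := by
  classical
  set T : Finset (Fin k → ZMod m) := (Set.toFinite (bad S f B c p m)).toFinset with hT
  set R : Finset (Fin k → ZMod m) := (Set.toFinite (Few k f B c p m)).toFinset with hR
  set G : (Fin k → ZMod m) → (Fin k → ZMod m) := fun a i => if i ∈ S then 0 else a i with hG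
  obtain ⟨v, _, hv⟩ := Finset.exists_max_image (Finset.univ : Finset (ZMod m))
    (fun v => (tup (nssSet p m) S.card v).card) ⟨0, mem_univ _⟩
  refine ⟨v, ?_⟩
  rw [Set.ncard_eq_toFinset_card _ (Set.toFinite (bad S f B c p m)),
    Set.ncard_eq_toFinset_card _ (Set.toFinite (Few k f B c p m)), ← hT, ← hR]
  have h1 : (T.image G).card ≤ R.card := by
    apply Finset.card_le_card
    intro b hb
    obtain ⟨a, ha, rfl⟩ := Finset.mem_image.1 hb
    rw [hT, Set.Finite.mem_toFinset] at ha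
    rw [hR, Set.Finite.mem_toFinset]
    exact ha.2.2
  refine (Finset.card_le_mul_card_image T ((tup (nssSet p m) S.card v).card) (f := G) ?_).trans
    (Nat.mul_le_mul_left _ h1)
  intro b _
  refine le_trans ?_ (hv (-∑ i, b i) (mem_univ _))
  refine Finset.card_le_card_of_injOn (fun a j => a (S.equivFin.symm j).1) ?_ ?_
  · intro a ha
    rw [Finset.mem_coe, mem_filter, hT, Set.Finite.mem_toFinset] at ha
    obtain ⟨⟨h2, h3, _⟩, h4⟩ := ha
    rw [Finset.mem_coe, mem_tup]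
    refine ⟨fun j => mem_nssSet.2 (h2 _ (S.equivFin.symm j).2), ?_⟩
    have h5 : ∑ j, a (S.equivFin.symm j).1 = ∑ i ∈ S, a i := by
      rw [← Finset.sum_coe_sort S a]
      exact Fintype.sum_equiv S.equivFin.symm _ _ fun j => rfl
    have h6 : ∑ i, b i = ∑ i ∈ Sᶜ, a i := by
      rw [← h4, hG]
      simp only
      rw [Finset.sum_ite]
      simp only [Finset.sum_const_zero, zero_add]
      refine Finset.sum_congr ?_ fun _ _ => rfl
      ext i
      simp
    rw [h5, h6, eq_neg_iff_add_eq_zero, Finset.sum_add_sum_compl, h3]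
  · intro a ha a' ha' haa
    rw [Finset.mem_coe, mem_filter] at ha ha'
    funext i
    by_cases hi : i ∈ S
    · have h2 := congrFun haa (S.equivFin ⟨i, hi⟩)
      simpa using h2
    · have h2 := congrFun (ha.2.trans ha'.2.symm) i
      rw [hG] at h2
      simpa [hi] using h2

lemma bad_sq {C h c : ℕ} (hm2 : 2 ≤ m) (hpm : p.Coprime m) (S : Finset (Fin (2 * h)))
    (hc : 2 * c + 1 + S.card ≤ 2 * h) (B : ℕ)
    (hC : (Few (2 * h) f B c p m).ncard ≤ C * m ^ c) :
    (bad S f B c p m).ncard ^ 2 * m ≤ C ^ 2 * 2 ^ (2 * h) * (tateSet p m (2 * h)).ncard ^ 2 := by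
  obtain ⟨v, hv⟩ := bad_le (p := p) (f := f) (m := m) S B c
  obtain ⟨α, β, hα, hαh, hβh, hs⟩ : ∃ α β : ℕ, S.card = α + β ∧ α ≤ h ∧ β ≤ h ∧
      2 * c + 1 ≤ (h - α) + (h - β) :=
    ⟨S.card / 2, S.card - S.card / 2, by omega, by omega, by omega, by omega⟩
  rw [hα] at hv
  have h1 := card_tup_sq_le (nssSet p m) α β v
  have h2 := tate_lower (p := p) (m := m) hpm hαh
  have h3 := tate_lower (p := p) (m := m) hpm hβh
  set τ := (tateSet p m (2 * h)).ncard with hτ
  set Eα := energy (nssSet p m) α with hEα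
  set Eβ := energy (nssSet p m) β with hEβ
  set X := (tup (nssSet p m) (α + β) v).card with hX
  have h4 : (m - 1) ^ (2 * c + 1) * (Eα * Eβ) ≤ τ ^ 2 := by
    calc (m - 1) ^ (2 * c + 1) * (Eα * Eβ) ≤ (m - 1) ^ ((h - α) + (h - β)) * (Eα * Eβ) :=
          Nat.mul_le_mul_right _ (Nat.pow_le_pow_right (by omega) hs)
      _ = ((m - 1) ^ (h - α) * Eα) * ((m - 1) ^ (h - β) * Eβ) := by rw [pow_add]; ring
      _ ≤ τ * τ := Nat.mul_le_mul h2 h3
      _ = τ ^ 2 := by ring
  have h5 : m ^ (2 * c + 1) ≤ 2 ^ (2 * h) * (m - 1) ^ (2 * c + 1) := by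
    calc m ^ (2 * c + 1) ≤ (2 * (m - 1)) ^ (2 * c + 1) := Nat.pow_le_pow_left (by omega) _
      _ = 2 ^ (2 * c + 1) * (m - 1) ^ (2 * c + 1) := mul_pow _ _ _
      _ ≤ 2 ^ (2 * h) * (m - 1) ^ (2 * c + 1) :=
        Nat.mul_le_mul_right _ (Nat.pow_le_pow_right (by omega) (by omega))
  calc (bad S f B c p m).ncard ^ 2 * m ≤ (X * (C * m ^ c)) ^ 2 * m :=
        Nat.mul_le_mul_right _ (Nat.pow_le_pow_left (hv.trans (Nat.mul_le_mul_left _ hC)) 2)
    _ = C ^ 2 * m ^ (2 * c + 1) * X ^ 2 := by ring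
    _ ≤ C ^ 2 * (2 ^ (2 * h) * (m - 1) ^ (2 * c + 1)) * (Eα * Eβ) :=
        Nat.mul_le_mul (Nat.mul_le_mul_left _ h5) h1
    _ = C ^ 2 * 2 ^ (2 * h) * ((m - 1) ^ (2 * c + 1) * (Eα * Eβ)) := by ring
    _ ≤ C ^ 2 * 2 ^ (2 * h) * τ ^ 2 := Nat.mul_le_mul_left _ h4

lemma few_mono {B B' c : ℕ} (hB : B ≤ B') : Few k f B c p m ⊆ Few k f B' c p m := by
  rintro b ⟨E, E', w, φ, v, h1, h2⟩
  have h3 : (B : ℤ) ≤ B' := by exact_mod_cast hB
  exact ⟨E, E', w, φ, v, fun i => ⟨(h1 i).1, (h1 i).2.1.trans h3, (h1 i).2.2.1.trans h3,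
    (h1 i).2.2.2⟩, h2⟩

/-- If `f` is odd, the residues with trivial Stickelberger sums have bounded order. -/
lemma few_all (hL : 0 < L) (hf : 0 < f) (hodd : Odd f) (hpf : (p : ZMod m) ^ f = 1)
    {a : Fin k → ZMod m} {S : Finset (Fin k)} {c : ℕ}
    (hS : ∀ i ∈ S, ∃ (E E' : ℤ) (w : ℕ), 0 < E ∧ 0 < E' ∧ E ≤ L ∧ E' ≤ L ∧
        (E : ZMod m) * a i = -((E' : ZMod m) * (p : ZMod m) ^ w * a i))
    (h : (fun i => if i ∈ S then 0 else a i) ∈ Few k f (L ^ (k + 1)) c p m) :
    a ∈ Few k f (2 * L ^ f + L ^ (k + 1)) c p m := by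
  obtain ⟨E, E', w, φ, v, h1, h2⟩ := few_mono (Nat.le_add_left (L ^ (k + 1)) (2 * L ^ f)) h
  have hrel : ∀ i, ∃ (E1 E1' : ℤ) (w1 : ℕ), (E1 ≠ 0 ∧
      |E1| ≤ ((2 * L ^ f + L ^ (k + 1) : ℕ) : ℤ) ∧
      |E1'| ≤ ((2 * L ^ f + L ^ (k + 1) : ℕ) : ℤ) ∧ w1 < f) ∧
      (E1 : ZMod m) * a i = (E1' : ZMod m) * (p : ZMod m) ^ w1 * (φ i).elim 0 v := by
    intro i
    by_cases hi : i ∈ S
    · obtain ⟨E1, E1', w1, h3, h4, h5, h6, h7⟩ := hS i hi
      refine ⟨E1 ^ f + E1' ^ f, 0, 0, ⟨by positivity, ?_, ?_, hf⟩, ?_⟩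
      · rw [abs_of_pos (by positivity)]
        push_cast
        have h8 : E1 ^ f ≤ (L : ℤ) ^ f := pow_le_pow_left₀ h3.le h5 f
        have h9 : E1' ^ f ≤ (L : ℤ) ^ f := pow_le_pow_left₀ h4.le h6 f
        have h10 : (0 : ℤ) ≤ (L : ℤ) ^ (k + 1) := by positivity
        linarith
      · rw [abs_zero]; positivity
      · have h8 : ∀ n : ℕ, (E1 : ZMod m) ^ n * a i =
            (-((E1' : ZMod m) * (p : ZMod m) ^ w1)) ^ n * a i := by
          intro n
          induction n with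
          | zero => simp
          | succ n ih =>
            rw [pow_succ, pow_succ, mul_assoc, h7]
            linear_combination (-((E1' : ZMod m) * (p : ZMod m) ^ w1)) * ih
        have h9 := h8 f
        rw [hodd.neg_pow, mul_pow, ← pow_mul, mul_comm w1 f, pow_mul, hpf, one_pow, mul_one] at h9
        push_cast
        linear_combination h9
    · refine ⟨E i, E' i, w i, h1 i, ?_⟩
      have h3 := h2 i
      simp only [if_neg hi] at h3
      exact h3
  choose E1 E1' w1 h3 h4 using hrel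
  exact ⟨E1, E1', w1, φ, v, h3, h4⟩

/-- **Exceptional Tate tuples are rare.** -/
theorem exc_rare (k f : ℕ) (hf : 0 < f) : ∃ M C : ℕ, 0 < M ∧ 0 < C ∧
    ∀ p : ℕ, p.Prime → ∀ m : ℕ, 0 < m → m ∣ p ^ f - 1 →
      (excSet p m k).ncard ^ 2 * m ≤ C * (tateSet p m k).ncard ^ 2 ∧
      (Odd f → (excSet p m k).ncard * m ≤ C * m ^ (k / 2)) ∧
      (m.Coprime M → excSet p m k = ∅) := by
  classical
  obtain ⟨L, hL, hG⟩ := exists_blocks2 (Fin f × Fin k)
  have hG' : Good2 f k L := fun m _ A I h1 h2 => hG m A I h1 h2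
  set B : ℕ := 2 * L ^ f + L ^ (k + 1) with hBdef
  choose C hC using fun c => countY k f B c
  set C0 : ℕ := ∑ c ∈ Finset.range (k + 1), C c with hC0
  set P : Finset (Finset (Fin k) × ℕ) :=
    ((Finset.univ : Finset (Finset (Fin k))) ×ˢ Finset.range (k + 1)).filter
      fun x => 2 * x.2 + 1 + x.1.card ≤ k with hP
  have hCle : ∀ c ∈ Finset.range (k + 1), C c ≤ C0 := fun c hc =>
    Finset.single_le_sum (fun _ _ => Nat.zero_le _) hc
  refine ⟨L.factorial, P.card * (P.card * (C0 ^ 2 * 2 ^ k)) + C0 + 1, Nat.factorial_pos _,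
    Nat.succ_pos _, ?_⟩
  intro p hp m hm hdvd
  haveI : NeZero m := ⟨hm.ne'⟩
  have hp1 : 1 ≤ p ^ f := Nat.one_le_pow _ _ hp.pos
  have hpf : (p : ZMod m) ^ f = 1 := by
    have h1 : ((p ^ f - 1 : ℕ) : ZMod m) = 0 := (ZMod.natCast_eq_zero_iff _ _).2 hdvd
    rw [Nat.cast_sub hp1] at h1
    push_cast at h1
    exact sub_eq_zero.1 h1
  have hpm : p.Coprime m := by
    rw [← ZMod.isUnit_iff_coprime]
    exact IsUnit.of_pow_eq_one hpf hf.ne'
  have hfew : ∀ a ∈ excSet p m k, ∃ (S : Finset (Fin k)) (c : ℕ), 2 * c + 1 + S.card ≤ k ∧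
      (∀ i ∈ S, NSS p (a i)) ∧
      (∀ i ∈ S, ∃ (E E' : ℤ) (w : ℕ), 0 < E ∧ 0 < E' ∧ E ≤ L ∧ E' ≤ L ∧
        (E : ZMod m) * a i = -((E' : ZMod m) * (p : ZMod m) ^ w * a i)) ∧
      (fun i => if i ∈ S then 0 else a i) ∈ Few k f (L ^ (k + 1)) c p m :=
    fun a ha => few_classes hp hL hf hG' hpm hpf ha.1 ha.2
  have hcount : ∀ c, (Few k f B c p m).ncard ≤ C c * m ^ c := by
    intro c
    refine hC c m p _ ?_
    rintro b ⟨E, E', w, φ, v, h1, h2⟩
    exact ⟨E, E', w, φ, v, h1, h2⟩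
  refine ⟨?_, ?_, ?_⟩
  · rcases (excSet p m k).eq_empty_or_nonempty with hemp | ⟨a0, ha0⟩
    · rw [hemp, Set.ncard_empty]; simp
    obtain ⟨ha00, hkeven, _, _⟩ := tate_facts hpm ha0.1
    obtain ⟨S0, c0, hc0, _⟩ := hfew a0 ha0
    have hm2 : 2 ≤ m := by
      by_contra hcon
      have hm1 : m = 1 := by omega
      subst hm1
      exact ha00 ⟨0, by omega⟩ (Subsingleton.elim _ _)
    obtain ⟨h, hh⟩ := hkeven
    have hk2 : k = 2 * h := by omega
    clear_value C0 B
    subst hk2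
    have hsub : (excSet p m (2 * h)) ⊆
        ⋃ x ∈ P, bad x.1 f B x.2 p m := by
      intro a ha
      obtain ⟨S, c, h1, h2, _, h4⟩ := hfew a ha
      obtain ⟨_, _, h5, _⟩ := tate_facts hpm ha.1
      refine Set.mem_biUnion (x := (S, c)) ?_ ⟨h2, h5, few_mono ?_ h4⟩
      · rw [hP, Finset.mem_coe, mem_filter, Finset.mem_product, Finset.mem_range]
        exact ⟨⟨mem_univ _, by simp only; omega⟩, h1⟩
      · rw [hBdef]; exact Nat.le_add_left _ _
    have hle : (excSet p m (2 * h)).ncard ≤ ∑ x ∈ P, (bad x.1 f B x.2 p m).ncard := by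
      refine (Set.ncard_le_ncard hsub (Set.toFinite _)).trans ?_
      exact Finset.set_ncard_biUnion_le P _
    have hbad : ∀ x ∈ P, (bad x.1 f B x.2 p m).ncard ^ 2 * m ≤
        C0 ^ 2 * 2 ^ (2 * h) * (tateSet p m (2 * h)).ncard ^ 2 := by
      intro x hx
      rw [hP, mem_filter, Finset.mem_product] at hx
      refine (bad_sq hm2 hpm x.1 hx.2 B (hcount x.2)).trans ?_
      exact Nat.mul_le_mul_right _ (Nat.mul_le_mul_right _
        (Nat.pow_le_pow_left (hCle _ hx.1.2) 2))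
    calc (excSet p m (2 * h)).ncard ^ 2 * m ≤
          (∑ x ∈ P, (bad x.1 f B x.2 p m).ncard) ^ 2 * m :=
          Nat.mul_le_mul_right _ (Nat.pow_le_pow_left hle 2)
      _ ≤ (P.card * ∑ x ∈ P, (bad x.1 f B x.2 p m).ncard ^ 2) * m :=
          Nat.mul_le_mul_right _ (by
            exact_mod_cast sq_sum_le_card_mul_sum_sq (s := P)
              (f := fun x => (bad x.1 f B x.2 p m).ncard))
      _ = P.card * ∑ x ∈ P, (bad x.1 f B x.2 p m).ncard ^ 2 * m := by
          rw [mul_assoc, Finset.sum_mul]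
      _ ≤ P.card * ∑ _x ∈ P, C0 ^ 2 * 2 ^ (2 * h) * (tateSet p m (2 * h)).ncard ^ 2 :=
          Nat.mul_le_mul_left _ (Finset.sum_le_sum hbad)
      _ = (P.card * (P.card * (C0 ^ 2 * 2 ^ (2 * h)))) * (tateSet p m (2 * h)).ncard ^ 2 := by
          rw [Finset.sum_const, smul_eq_mul]; ring
      _ ≤ _ := Nat.mul_le_mul_right _ (by omega)
  · intro hodd
    rcases (excSet p m k).eq_empty_or_nonempty with hemp | ⟨a0, ha0⟩
    · rw [hemp, Set.ncard_empty]; simp
    obtain ⟨ha00, hkeven, _, _⟩ := tate_facts hpm ha0.1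
    obtain ⟨S0, c0, hc0, _⟩ := hfew a0 ha0
    obtain ⟨h, hh⟩ := hkeven
    have hsub : (excSet p m k) ⊆ ⋃ c ∈ Finset.range h, Few k f B c p m := by
      intro a ha
      obtain ⟨S, c, h1, h2, h3, h4⟩ := hfew a ha
      refine Set.mem_biUnion (x := c) ?_ (few_all hL hf hodd hpf h3 h4)
      rw [Finset.mem_coe, Finset.mem_range]
      omega
    have hle : (excSet p m k).ncard ≤ C0 * m ^ (h - 1) := by
      refine (Set.ncard_le_ncard hsub (Set.toFinite _)).trans ?_
      refine (Finset.set_ncard_biUnion_le _ _).trans ?_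
      calc ∑ c ∈ Finset.range h, (Few k f B c p m).ncard ≤
            ∑ c ∈ Finset.range h, C c * m ^ (h - 1) := by
            refine Finset.sum_le_sum fun c hc => (hcount c).trans ?_
            rw [Finset.mem_range] at hc
            exact Nat.mul_le_mul_left _ (Nat.pow_le_pow_right hm (by omega))
        _ = (∑ c ∈ Finset.range h, C c) * m ^ (h - 1) := by rw [Finset.sum_mul]
        _ ≤ C0 * m ^ (h - 1) := by
            refine Nat.mul_le_mul_right _ (Finset.sum_le_sum_of_subset ?_)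
            exact Finset.range_subset_range.2 (by omega)
    have hkh : k / 2 = (h - 1) + 1 := by omega
    calc (excSet p m k).ncard * m ≤ C0 * m ^ (h - 1) * m := Nat.mul_le_mul_right _ hle
      _ = C0 * m ^ (k / 2) := by rw [hkh, pow_succ]; ring
      _ ≤ _ := Nat.mul_le_mul_right _ (by omega)
  · intro hco
    rw [Set.eq_empty_iff_forall_notMem]
    intro a ha
    exact ha.2 (alg_of_coprime hp hL hf hG' hpm hpf hco ha.1)

end Pool.Agent.K4H27.FT
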