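import Pool.Agent.K4H27.FH.Struct

/-!
# The block structure, refined: every class is killed by the odd distributions
-/

namespace Pool.Agent.K4H27.FT

open Finset Pool.Agent.H916R2 Pool.Agent.K4H27.FH

/-- One block, refined. -/
theorem step2 {ι : Type} [Fintype ι] [DecidableEq ι] {m L : ℕ} [NeZero m] (hL : 0 < L)
    (a : ι → ZMod m) (I : Finset ι) (ha : ∀ i ∈ I, a i ≠ 0) (κ : ι → ℤ)
    (hκL : ∀ i, κ i ≠ 0 → (κ i) ∣ (L : ℤ))
    (hx : ∀ x : UnitAddCircle, (∀ i ∈ I, ZMod.toAddCircle (a i) + κ i • x ≠ 0) →
        ∑ i ∈ I, sawR (ZMod.toAddCircle (a i) + κ i • x) = 0) :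
    ∃ e : ι → ℤ, (∀ i ∈ I.filter (fun i => κ i ≠ 0), e i ≠ 0 ∧ |e i| ≤ L) ∧
      (∀ i ∈ I.filter (fun i => κ i ≠ 0), ∃ j ∈ I.filter (fun i => κ i ≠ 0),
        (e j : ZMod m) * a j = (e i : ZMod m) * a i ∧
          SignType.sign (e j) = - SignType.sign (e i)) ∧
      (∀ (v : ZMod m) (Q : Type) [AddCommGroup Q] (c : ZMod (L * m) → Q), OddDist c →
        ∑ i ∈ (I.filter (fun i => κ i ≠ 0)).filter (fun i => (e i : ZMod m) * a i = v),
          c (iota L (a i)) = 0) ∧
      (Nat.Coprime m L → ∀ (v : ZMod m) (n : ℕ),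
        ∑ i ∈ (I.filter (fun i => κ i ≠ 0)).filter
          (fun i => (e i : ZMod m) * a i = v ∧ (e i).natAbs = n),
            ((SignType.sign (e i) : ℤ)) = 0) := by
  classical
  have hm : 0 < m := NeZero.pos m
  have hNe : NeZero (L * m) := ⟨Nat.mul_ne_zero hL.ne' hm.ne'⟩
  set N := L * m with hNdef
  set b : ι → ZMod N := fun i => iota L (a i) with hb
  have hb0 : ∀ i ∈ I, b i ≠ 0 := fun i hi h => ha i hi (iota_eq_zero rfl h)
  have hj := jump I b hb0 κ (by
    intro x hne
    have h1 := hx x (by
      intro i hi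
      rw [← toAddCircle_iota hL (a i)]
      exact hne i hi)
    rw [← h1]
    refine Finset.sum_congr rfl fun i _ => ?_
    rw [hb, ← toAddCircle_iota hL (a i)])
  choose! e he using hκL
  -- e i = L / κ i
  have he0 : ∀ i, κ i ≠ 0 → e i ≠ 0 := by
    intro i hi h
    have h1 := he i hi
    rw [h, mul_zero] at h1
    omega
  have hLm : ((L : ℤ) : ZMod N) * ((m : ℤ) : ZMod N) = 0 := by
    have h1 : ((L * m : ℕ) : ZMod N) = 0 := by rw [← hNdef]; simp
    push_cast at h1 ⊢
    exact h1
  have hθ : ∀ i, κ i ≠ 0 → ∀ s : ℤ,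
      (κ i : ZMod N) * ((e i * ((a i).val + m * s) : ℤ) : ZMod N) = b i := by
    intro i hi s
    have h1 : (κ i : ZMod N) * (e i : ZMod N) = ((L : ℤ) : ZMod N) := by
      rw [he i hi]; push_cast; rfl
    have h2 : b i = ((L : ℤ) : ZMod N) * (((a i).val : ℤ) : ZMod N) := by
      rw [hb]; unfold iota; push_cast; rfl
    rw [h2]
    push_cast at h1 hLm ⊢
    linear_combination (((a i).val : ZMod N) + (m : ZMod N) * (s : ZMod N)) * h1 +
      (s : ZMod N) * hLm
  -- the class of a solution is determined
  have hcls : ∀ i, κ i ≠ 0 → ∀ z : ℤ, (κ i : ZMod N) * (z : ZMod N) = b i →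
      (e i : ZMod m) * a i = (z : ZMod m) := by
    intro i hi z hz
    have h6 := hθ i hi 0
    have h7 : ((κ i * (z - e i * (a i).val) : ℤ) : ZMod N) = 0 := by
      have h8 : (κ i : ZMod N) * (z : ZMod N) =
          (κ i : ZMod N) * ((e i * ((a i).val + m * 0) : ℤ) : ZMod N) := by rw [hz, h6]
      push_cast at h8 ⊢
      linear_combination h8
    rw [ZMod.intCast_zmod_eq_zero_iff_dvd] at h7
    have h8 : ((N : ℕ) : ℤ) = κ i * (e i * m) := by
      rw [hNdef]; push_cast; rw [he i hi]; ring
    rw [h8] at h7
    have h9 := Int.dvd_of_mul_dvd_mul_left hi h7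
    have h10 : (m : ℤ) ∣ z - e i * (a i).val := (Dvd.intro_left _ rfl).trans h9
    rw [← ZMod.intCast_zmod_eq_zero_iff_dvd] at h10
    push_cast at h10
    rw [ZMod.natCast_zmod_val] at h10
    linear_combination -h10
  have hsigne : ∀ i, κ i ≠ 0 → SignType.sign (e i) = SignType.sign (κ i) := by
    intro i hi
    have h1 := he i hi
    have h2 : (0 : ℤ) < L := by exact_mod_cast hL
    rcases lt_or_gt_of_ne hi with h3 | h3
    · have h4 : e i < 0 := by
        by_contra h5
        push Not at h5
        have h6 := mul_nonpos_of_nonpos_of_nonneg h3.le h5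
        rw [← h1] at h6
        omega
      rw [sign_neg h3, sign_neg h4]
    · have h4 : 0 < e i := by
        by_contra h5
        push Not at h5
        have h6 := mul_nonpos_of_nonneg_of_nonpos h3.le h5
        rw [← h1] at h6
        omega
      rw [sign_pos h3, sign_pos h4]
  have hkey : ∀ i ∈ I.filter (fun i => κ i ≠ 0), ∀ s : ℤ, ∃ j ∈ I.filter (fun i => κ i ≠ 0),
      SignType.sign (κ j) = - SignType.sign (κ i) ∧
        (κ j : ZMod N) * ((e i * ((a i).val + m * s) : ℤ) : ZMod N) = b j := by
    intro i hi s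
    rw [mem_filter] at hi
    set θ : ZMod N := ((e i * ((a i).val + m * s) : ℤ) : ZMod N) with hθdef
    have h1 := hj θ
    have h2 := hθ i hi.2 s
    rw [← hθdef] at h2
    have h3 : ∃ j ∈ I, (κ j : ZMod N) * θ = b j ∧ SignType.sign (κ j) = - SignType.sign (κ i) := by
      by_contra hcon
      push Not at hcon
      have h4 : ∑ j ∈ I, (SignType.sign (κ i) : ℤ) * (if (κ j : ZMod N) * θ = b j then
          (SignType.sign (κ j) : ℤ) else 0) = 0 := by
        rw [← Finset.mul_sum, h1, mul_zero]
      have h5 : ∀ j ∈ I, 0 ≤ (SignType.sign (κ i) : ℤ) * (if (κ j : ZMod N) * θ = b j then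
          (SignType.sign (κ j) : ℤ) else 0) := by
        intro j hjI
        by_cases h6 : (κ j : ZMod N) * θ = b j
        · rw [if_pos h6]
          have h7 := hcon j hjI h6
          revert h7
          generalize SignType.sign (κ j) = u
          generalize SignType.sign (κ i) = v
          revert u v
          decide
        · rw [if_neg h6, mul_zero]
      have h6 := (Finset.sum_eq_zero_iff_of_nonneg h5).1 h4 i hi.1
      rw [if_pos h2] at h6
      have h7 : SignType.sign (κ i) ≠ 0 := by
        rw [Ne, sign_eq_zero_iff]; exact hi.2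
      revert h6 h7
      generalize SignType.sign (κ i) = v
      revert v
      decide
    obtain ⟨j, hjI, h4, h5⟩ := h3
    have hκj : κ j ≠ 0 := by
      intro h
      rw [h, sign_zero] at h5
      have h7 : SignType.sign (κ i) ≠ 0 := by
        rw [Ne, sign_eq_zero_iff]; exact hi.2
      revert h5 h7
      generalize SignType.sign (κ i) = v
      revert v
      decide
    exact ⟨j, mem_filter.2 ⟨hjI, hκj⟩, h5, h4⟩
  refine ⟨e, ?_, ?_, ?_, ?_⟩
  · intro i hi
    have hi2 := (mem_filter.1 hi).2
    refine ⟨he0 i hi2, ?_⟩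
    exact Int.le_of_dvd (by exact_mod_cast hL) ((abs_dvd _ _).2 (Dvd.intro_left _ (he i hi2).symm))
  · intro i hi
    obtain ⟨j, hj', h1, h2⟩ := hkey i hi 0
    refine ⟨j, hj', ?_, ?_⟩
    · rw [hcls j (mem_filter.1 hj').2 _ h2]
      push_cast
      rw [ZMod.natCast_zmod_val]
      ring
    · rw [hsigne j (mem_filter.1 hj').2, hsigne i (mem_filter.1 hi).2, h1]
  · intro v Q _ c hc
    have hI' := block_sum ((I.filter (fun i : ι => κ i ≠ 0)).filter
      (fun i : ι => (e i : ZMod m) * a i = v)) b κ ?_ ?_ hc
    · have h1 : (((I.filter (fun i => κ i ≠ 0)).filter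
          (fun i => (e i : ZMod m) * a i = v)).filter (fun i => κ i ≠ 0)) =
          ((I.filter (fun i => κ i ≠ 0)).filter (fun i => (e i : ZMod m) * a i = v)) := by
        rw [Finset.filter_eq_self]
        intro i hi
        exact (mem_filter.1 (mem_filter.1 hi).1).2
      rw [h1] at hI'
      exact hI'
    · intro θ
      have hθv : ((θ.val : ℤ) : ZMod N) = θ := by
        rw [Int.cast_natCast, ZMod.natCast_zmod_val]
      by_cases hv : ((θ.val : ℤ) : ZMod m) = v
      · have hsub : ((I.filter (fun i : ι => κ i ≠ 0)).filter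
            (fun i : ι => (e i : ZMod m) * a i = v)) ⊆ I := by
          intro i hi
          exact (mem_filter.1 (mem_filter.1 hi).1).1
        refine Eq.trans (Finset.sum_subset hsub ?_) (hj θ)
        intro i hi hni
        by_cases hκi : κ i = 0
        · rw [hκi]; simp
        rw [if_neg]
        intro h1
        apply hni
        refine mem_filter.2 ⟨mem_filter.2 ⟨hi, hκi⟩, ?_⟩
        rw [← hv]
        exact hcls i hκi _ (by rw [hθv]; exact h1)
      · refine Finset.sum_eq_zero fun i hi => ?_
        rw [if_neg]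
        intro h1
        apply hv
        rw [mem_filter, mem_filter] at hi
        rw [← hi.2]
        exact (hcls i hi.1.2 _ (by rw [hθv]; exact h1)).symm
    · intro i hi hκi
      refine ⟨?_, _, hθ i hκi 0⟩
      have h1 : (κ i).natAbs ∣ L := by
        have h2 := Int.natAbs_dvd_natAbs.2 (Dvd.intro _ (he i hκi).symm)
        simpa using h2
      exact h1.mul_right m
  · intro hco v n
    set Jv := (I.filter (fun i => κ i ≠ 0)).filter (fun i => (e i : ZMod m) * a i = v) with hJv
    have hJvκ : ∀ i ∈ Jv, i ∈ I ∧ κ i ≠ 0 ∧ (e i : ZMod m) * a i = v := by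
      intro i hi
      rw [hJv, mem_filter, mem_filter] at hi
      exact ⟨hi.1.1, hi.1.2, hi.2⟩
    -- the sums over the multiples
    have hT : ∀ n' : ℕ, n' ∣ L →
        ∑ i ∈ Jv.filter (fun i => n' ∣ (κ i).natAbs), ((SignType.sign (κ i) : ℤ)) = 0 := by
      intro n' hn'
      obtain ⟨w, hw⟩ := hn'
      obtain ⟨z0, hz0m, hz0L⟩ := Nat.chineseRemainder hco v.val 0
      set θ : ZMod N := (((z0 : ℤ) + m * w : ℤ) : ZMod N) with hθdef
      have hiff : ∀ i ∈ Jv, ((κ i : ZMod N) * θ = b i ↔ n' ∣ (κ i).natAbs) := by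
        intro i hi
        obtain ⟨hiI, hκi, hiv⟩ := hJvκ i hi
        have hcoI : IsCoprime (L : ℤ) (m : ℤ) := by
          rw [Int.isCoprime_iff_gcd_eq_one, Int.gcd_natCast_natCast]
          exact Nat.Coprime.symm hco
        -- base point
        have h1 : (N : ℤ) ∣ κ i * z0 - L * (a i).val := by
          have h2 : (L : ℤ) ∣ κ i * z0 - L * (a i).val := by
            have h3 : (L : ℤ) ∣ (z0 : ℤ) := by
              have h4 : L ∣ z0 := (Nat.modEq_zero_iff_dvd).1 hz0L
              exact_mod_cast h4
            exact Int.dvd_sub (h3.mul_left _) (Dvd.intro _ rfl)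
          have h3 : (m : ℤ) ∣ κ i * z0 - L * (a i).val := by
            rw [← ZMod.intCast_zmod_eq_zero_iff_dvd]
            have h4 : ((z0 : ℕ) : ZMod m) = v := by
              have h5 := (ZMod.natCast_eq_natCast_iff _ _ _).2 hz0m
              rw [h5, ZMod.natCast_zmod_val]
            have h5 : (κ i : ZMod m) * (e i : ZMod m) = ((L : ℤ) : ZMod m) := by
              rw [he i hκi]; push_cast; rfl
            push_cast at h5 ⊢
            rw [ZMod.natCast_zmod_val, h4, ← hiv]
            linear_combination (a i) * h5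
          rw [hNdef]
          push_cast
          exact hcoI.mul_dvd h2 h3
        have h2 : b i = ((L * (a i).val : ℤ) : ZMod N) := by
          rw [hb]; unfold iota; push_cast; rfl
        have h3 : ((κ i : ZMod N) * θ = b i) ↔ (N : ℤ) ∣ κ i * (m * w) := by
          rw [h2, hθdef, ← Int.cast_mul, ← sub_eq_zero, ← Int.cast_sub,
            ZMod.intCast_zmod_eq_zero_iff_dvd]
          have h4 : κ i * ((z0 : ℤ) + m * w) - L * (a i).val =
              (κ i * z0 - L * (a i).val) + κ i * (m * w) := by ring
          rw [h4]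
          exact ⟨fun h => (Int.dvd_add_right h1).1 h, fun h => Int.dvd_add h1 h⟩
        rw [h3]
        have hw0 : (w : ℤ) ≠ 0 := by
          intro h
          have : w = 0 := by exact_mod_cast h
          rw [this, mul_zero] at hw
          omega
        have hm0 : (m : ℤ) ≠ 0 := by exact_mod_cast hm.ne'
        have h4 : (N : ℤ) = (n' : ℤ) * (m * w) := by
          rw [hNdef, hw]; push_cast; ring
        rw [h4, Int.mul_dvd_mul_iff_right (mul_ne_zero hm0 hw0), ← Int.natCast_dvd]
      have h1 := hj θ
      rw [← Finset.sum_filter_add_sum_filter_not I (fun i => i ∈ Jv)] at h1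
      have h2 : ∑ i ∈ I.filter (fun i => ¬ i ∈ Jv), (if (κ i : ZMod N) * θ = b i then
          (SignType.sign (κ i) : ℤ) else 0) = 0 := by
        refine Finset.sum_eq_zero fun i hi => ?_
        rw [mem_filter] at hi
        by_cases hκi : κ i = 0
        · rw [hκi]; simp
        rw [if_neg]
        intro h3
        apply hi.2
        rw [hJv]
        refine mem_filter.2 ⟨mem_filter.2 ⟨hi.1, hκi⟩, ?_⟩
        rw [hcls i hκi _ h3]
        push_cast
        rw [ZMod.natCast_self, zero_mul, add_zero]
        have h5 := (ZMod.natCast_eq_natCast_iff _ _ _).2 hz0m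
        rw [h5, ZMod.natCast_zmod_val]
      rw [h2, add_zero] at h1
      rw [← h1]
      have h3 : I.filter (fun i => i ∈ Jv) = Jv := by
        ext i
        rw [mem_filter]
        exact ⟨fun h => h.2, fun h => ⟨(hJvκ i h).1, h⟩⟩
      rw [h3, Finset.sum_filter]
      refine Finset.sum_congr rfl fun i hi => ?_
      rw [if_congr (hiff i hi).symm rfl rfl]
    -- exact values
    have hF : ∀ d : ℕ, ∀ q : ℕ, L - q = d → 
        ∑ i ∈ Jv.filter (fun i => (κ i).natAbs = q), ((SignType.sign (κ i) : ℤ)) = 0 := by
      intro d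
      induction d using Nat.strong_induction_on with
      | _ d ih =>
      intro q hq
      have hle : ∀ i ∈ Jv, (κ i).natAbs ∣ L := by
        intro i hi
        have h2 := Int.natAbs_dvd_natAbs.2 (Dvd.intro _ (he i (hJvκ i hi).2.1).symm)
        simpa using h2
      by_cases hqL : q ∣ L
      · have h1 := hT q hqL
        rw [← Finset.sum_filter_add_sum_filter_not _ (fun i => (κ i).natAbs = q)] at h1
        have h2 : (Jv.filter (fun i => q ∣ (κ i).natAbs)).filter (fun i => (κ i).natAbs = q) =
            Jv.filter (fun i => (κ i).natAbs = q) := by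
          ext i
          simp only [mem_filter]
          constructor
          · rintro ⟨⟨h3, _⟩, h4⟩; exact ⟨h3, h4⟩
          · rintro ⟨h3, h4⟩; exact ⟨⟨h3, h4 ▸ dvd_rfl⟩, h4⟩
        rw [h2] at h1
        have h3 : ∑ i ∈ (Jv.filter (fun i => q ∣ (κ i).natAbs)).filter
            (fun i => ¬ (κ i).natAbs = q), ((SignType.sign (κ i) : ℤ)) = 0 := by
          rw [← Finset.sum_fiberwise_of_maps_to (t := (Finset.range (L + 1)).filter (fun q' => q < q'))
            (g := fun i => (κ i).natAbs)]
          · refine Finset.sum_eq_zero fun q' hq' => ?_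
            rw [mem_filter, mem_range] at hq'
            by_cases hqq : q ∣ q'
            · have h4 := ih (L - q') (by omega) q' rfl
              rw [← h4]
              refine Finset.sum_congr ?_ fun _ _ => rfl
              ext i
              simp only [mem_filter]
              constructor
              · rintro ⟨⟨⟨h5, _⟩, _⟩, h6⟩; exact ⟨h5, h6⟩
              · rintro ⟨h5, h6⟩
                exact ⟨⟨⟨h5, h6 ▸ hqq⟩, by omega⟩, h6⟩
            · refine Finset.sum_eq_zero fun i hi => ?_
              simp only [mem_filter] at hi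
              exact absurd (hi.2 ▸ hi.1.1.2) hqq
          · intro i hi
            simp only [mem_filter] at hi
            have h5 := Nat.le_of_dvd (Int.natAbs_pos.2 (hJvκ i hi.1.1).2.1) hi.1.2
            have h6 := Nat.le_of_dvd hL (hle i hi.1.1)
            rw [mem_filter, mem_range]
            omega
        rw [h3, add_zero] at h1
        exact h1
      · refine Finset.sum_eq_zero fun i hi => ?_
        rw [mem_filter] at hi
        exact absurd (hi.2 ▸ hle i hi.1) hqL
    have hset : (I.filter (fun i => κ i ≠ 0)).filter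
        (fun i => (e i : ZMod m) * a i = v ∧ (e i).natAbs = n) =
        Jv.filter (fun i => (e i).natAbs = n) := by
      rw [hJv, Finset.filter_filter, Finset.filter_filter, Finset.filter_filter]
    rw [hset, Finset.sum_congr rfl fun i hi => by
      rw [hsigne i (hJvκ i (mem_filter.1 hi).1).2.1]]
    by_cases hn : n ∣ L ∧ n ≠ 0
    · obtain ⟨⟨w, hw⟩, hn0⟩ := hn
      rw [← hF _ w rfl]
      refine Finset.sum_congr (Finset.filter_congr fun i hi => ?_) fun _ _ => rfl
      have h1 := he i (hJvκ i hi).2.1
      have h2 : L = (κ i).natAbs * (e i).natAbs := by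
        have h3 := congrArg Int.natAbs h1
        rwa [Int.natAbs_natCast, Int.natAbs_mul] at h3
      constructor
      · intro h3
        rw [h3, hw, mul_comm] at h2
        exact (Nat.eq_of_mul_eq_mul_right (Nat.pos_of_ne_zero hn0) h2).symm
      · intro h3
        rw [h3, hw, mul_comm n w] at h2
        have hw0 : 0 < w := Nat.pos_of_ne_zero (by
          rintro rfl
          rw [mul_zero] at hw
          omega)
        exact (Nat.eq_of_mul_eq_mul_left hw0 h2).symm
    · refine Finset.sum_eq_zero fun i hi => ?_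
      exfalso
      apply hn
      rw [mem_filter] at hi
      have h1 := he i (hJvκ i hi.1).2.1
      have h2 : L = (κ i).natAbs * (e i).natAbs := by
        have h3 := congrArg Int.natAbs h1
        rwa [Int.natAbs_natCast, Int.natAbs_mul] at h3
      rw [hi.2] at h2
      refine ⟨Dvd.intro_left _ h2.symm, ?_⟩
      rintro rfl
      rw [mul_zero] at h2
      omega

end Pool.Agent.K4H27.FT
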