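import Pool.Agent.K4H27.FT.Step

/-!
# The refined structure theorem
-/

namespace Pool.Agent.K4H27.FT

open Finset Pool.Agent.H916R2 Pool.Agent.K4H27.FH

/-- The refined block structure of a tuple of residues: `J` is the union of the blocks, two entries
are in the same class if `g` agrees. -/
structure Blocks2 {ι : Type} {m : ℕ} (L : ℕ) (a : ι → ZMod m) (I J : Finset ι) (e : ι → ℤ)
    (g : ι → ℕ × ZMod m) : Prop where
  sub : J ⊆ I
  e0 : ∀ i ∈ J, e i ≠ 0
  eL : ∀ i ∈ J, |e i| ≤ L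
  g2 : ∀ i ∈ J, (g i).2 = (e i : ZMod m) * a i
  opp : ∀ i ∈ J, ∃ j ∈ J, g j = g i ∧ SignType.sign (e j) = - SignType.sign (e i)
  tors : ∀ i ∈ I, i ∉ J → L • a i = 0
  dist : ∀ (v : ℕ × ZMod m) (Q : Type) [AddCommGroup Q] (c : ZMod (L * m) → Q), OddDist c →
    ∑ i ∈ J.filter (fun i => g i = v), c (iota L (a i)) = 0
  cop : Nat.Coprime m L → ∀ (v : ℕ × ZMod m) (n : ℕ),
    ∑ i ∈ J.filter (fun i => g i = v ∧ (e i).natAbs = n), ((SignType.sign (e i) : ℤ)) = 0

/-- Sums over unions of classes vanish. -/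
lemma Blocks2.sum_eq_zero {ι : Type} {m L : ℕ} [NeZero m] {a : ι → ZMod m} {I J : Finset ι}
    {e : ι → ℤ} {g : ι → ℕ × ZMod m} (h : Blocks2 L a I J e g) (K : Finset ι) (hK : K ⊆ J)
    (hcl : ∀ i ∈ K, ∀ j ∈ J, g j = g i → j ∈ K) {Q : Type} [AddCommGroup Q]
    {c : ZMod (L * m) → Q} (hc : OddDist c) : ∑ i ∈ K, c (iota L (a i)) = 0 := by
  classical
  rw [← Finset.sum_fiberwise_of_maps_to (t := K.image g) (g := g)
    (fun i hi => Finset.mem_image_of_mem g hi)]
  refine Finset.sum_eq_zero fun v hv => ?_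
  obtain ⟨i0, hi0, rfl⟩ := Finset.mem_image.1 hv
  rw [← h.dist (g i0) Q c hc]
  refine Finset.sum_congr ?_ fun _ _ => rfl
  ext j
  simp only [mem_filter]
  exact ⟨fun ⟨h1, h2⟩ => ⟨hK h1, h2⟩, fun ⟨h1, h2⟩ => ⟨hcl i0 hi0 j h1 h2, h2⟩⟩

/-- **The refined structure theorem.** -/
theorem exists_blocks2 (ι : Type) [Fintype ι] [DecidableEq ι] : ∃ L : ℕ, 0 < L ∧
    ∀ (m : ℕ) [NeZero m] (a : ι → ZMod m) (I : Finset ι), (∀ i ∈ I, a i ≠ 0) →
    (∀ t : (ZMod m)ˣ, ∑ i ∈ I, saw ((t : ZMod m) * a i) = 0) →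
    ∃ (J : Finset ι) (e : ι → ℤ) (g : ι → ℕ × ZMod m), Blocks2 L a I J e g := by
  classical
  obtain ⟨M, hM, hfam⟩ := family_or_torsion' ι
  refine ⟨M.factorial, Nat.factorial_pos _, ?_⟩
  intro m _ a I
  induction hn : I.card using Nat.strong_induction_on generalizing I with
  | _ n ih =>
  intro ha hH
  rcases hfam m a I hH with h | ⟨κ, ⟨i0, hi0⟩, hκI, hκM, hx⟩
  · refine ⟨∅, fun _ => 1, fun _ => (0, 0), Finset.empty_subset _, by simp, by simp, by simp,
      by simp, ?_, by simp, by simp⟩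
    intro i hi _
    obtain ⟨q, hq⟩ := Nat.dvd_factorial hM le_rfl
    rw [hq, mul_comm, mul_smul, h i hi, smul_zero]
  · have hκL : ∀ i, κ i ≠ 0 → κ i ∣ (M.factorial : ℤ) := by
      intro i hi
      have h1 : (κ i).natAbs ∣ M.factorial := by
        apply Nat.dvd_factorial (Int.natAbs_pos.2 hi)
        have h2 := hκM i
        rw [Int.abs_eq_natAbs] at h2
        exact_mod_cast h2
      exact Int.natAbs_dvd_natAbs.1 (by simpa using h1)
    obtain ⟨e1, he1, hopp1, hdist1, hcop1⟩ := step2 (Nat.factorial_pos M) a I ha κ hκL hx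
    set J1 := I.filter (fun i => κ i ≠ 0) with hJ1
    have hJ1I : J1 ⊆ I := Finset.filter_subset _ _
    have hJ1ne : i0 ∈ J1 := mem_filter.2 ⟨hκI i0 hi0, hi0⟩
    have hdist1' : ∀ (Q : Type) [AddCommGroup Q] (c : ZMod (M.factorial * m) → Q), OddDist c →
        ∑ i ∈ J1, c (iota M.factorial (a i)) = 0 := by
      intro Q _ c hc
      rw [← Finset.sum_fiberwise_of_maps_to (t := Finset.univ)
        (g := fun i => (e1 i : ZMod m) * a i) (fun i hi => Finset.mem_univ _)]
      exact Finset.sum_eq_zero fun v _ => hdist1 v Q c hc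
    have hcard : (I \ J1).card < n := by
      rw [← hn]
      apply Finset.card_lt_card
      rw [Finset.ssubset_iff_of_subset (Finset.sdiff_subset)]
      exact ⟨i0, hκI i0 hi0, fun h => (Finset.mem_sdiff.1 h).2 hJ1ne⟩
    obtain ⟨J2, e2, g2, hB⟩ := ih _ hcard (I \ J1) rfl
      (fun i hi => ha i (Finset.mem_sdiff.1 hi).1) (by
      intro t
      have h1 := hH t
      rw [← Finset.sum_sdiff hJ1I, saw_of_dist (Nat.factorial_pos M) a J1 hdist1' t, add_zero] at h1
      exact h1)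
    have hdisj : Disjoint J1 J2 := by
      rw [Finset.disjoint_left]
      intro i h1 h2
      exact (Finset.mem_sdiff.1 (hB.sub h2)).2 h1
    have hJ2n : ∀ i ∈ J2, i ∉ J1 := fun i h2 h1 => (Finset.disjoint_left.1 hdisj) h1 h2
    set e : ι → ℤ := fun i => if i ∈ J1 then e1 i else e2 i with he
    set g : ι → ℕ × ZMod m := fun i =>
      if i ∈ J1 then (0, (e1 i : ZMod m) * a i) else ((g2 i).1 + 1, (g2 i).2) with hg
    have hg1 : ∀ i ∈ J1, g i = (0, (e1 i : ZMod m) * a i) := fun i hi => by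
      rw [hg]; exact if_pos hi
    have hg2 : ∀ i ∈ J2, g i = ((g2 i).1 + 1, (g2 i).2) := fun i hi => by
      rw [hg]; exact if_neg (hJ2n i hi)
    have he1' : ∀ i ∈ J1, e i = e1 i := fun i hi => by rw [he]; exact if_pos hi
    have he2' : ∀ i ∈ J2, e i = e2 i := fun i hi => by rw [he]; exact if_neg (hJ2n i hi)
    have hg22 : ∀ i ∈ J2, ∀ j ∈ J2, g j = g i ↔ g2 j = g2 i := by
      intro i hi j hj
      rw [hg2 i hi, hg2 j hj, Prod.mk.injEq, Prod.ext_iff, add_left_inj]
    have hg11 : ∀ i ∈ J1, ∀ j ∈ J1, g j = g i ↔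
        (e1 j : ZMod m) * a j = (e1 i : ZMod m) * a i := by
      intro i hi j hj
      rw [hg1 i hi, hg1 j hj, Prod.mk.injEq]
      simp
    -- the classes
    have hc0 : ∀ (w : ZMod m) (P : ι → Prop) [DecidablePred P],
        (J1 ∪ J2).filter (fun i => g i = (0, w) ∧ P i) =
          J1.filter (fun i => (e1 i : ZMod m) * a i = w ∧ P i) := by
      intro w P _
      ext i
      simp only [mem_filter, mem_union]
      constructor
      · rintro ⟨h1 | h1, h2, h3⟩
        · rw [hg1 i h1, Prod.mk.injEq] at h2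
          exact ⟨h1, h2.2, h3⟩
        · rw [hg2 i h1, Prod.mk.injEq] at h2
          exact absurd h2.1 (Nat.succ_ne_zero _)
      · rintro ⟨h1, h2, h3⟩
        refine ⟨Or.inl h1, ?_, h3⟩
        rw [hg1 i h1, h2]
    have hcs : ∀ (q : ℕ) (w : ZMod m) (P : ι → Prop) [DecidablePred P],
        (J1 ∪ J2).filter (fun i => g i = (q + 1, w) ∧ P i) =
          J2.filter (fun i => g2 i = (q, w) ∧ P i) := by
      intro q w P _
      ext i
      simp only [mem_filter, mem_union]
      constructor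
      · rintro ⟨h1 | h1, h2, h3⟩
        · rw [hg1 i h1, Prod.mk.injEq] at h2
          exact absurd h2.1.symm (Nat.succ_ne_zero _)
        · rw [hg2 i h1, Prod.mk.injEq, add_left_inj] at h2
          exact ⟨h1, Prod.ext h2.1 h2.2, h3⟩
      · rintro ⟨h1, h2, h3⟩
        refine ⟨Or.inr h1, ?_, h3⟩
        rw [hg2 i h1, h2]
    refine ⟨J1 ∪ J2, e, g, ?_, ?_, ?_, ?_, ?_, ?_, ?_, ?_⟩
    · exact Finset.union_subset hJ1I (hB.sub.trans Finset.sdiff_subset)
    · intro i hi
      rcases Finset.mem_union.1 hi with h | h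
      · rw [he1' i h]; exact (he1 i h).1
      · rw [he2' i h]; exact hB.e0 i h
    · intro i hi
      rcases Finset.mem_union.1 hi with h | h
      · rw [he1' i h]; exact (he1 i h).2
      · rw [he2' i h]; exact hB.eL i h
    · intro i hi
      rcases Finset.mem_union.1 hi with h | h
      · rw [he1' i h, hg1 i h]
      · rw [he2' i h, hg2 i h]; exact hB.g2 i h
    · intro i hi
      rcases Finset.mem_union.1 hi with h | h
      · obtain ⟨j, hj, h1, h2⟩ := hopp1 i h
        refine ⟨j, Finset.mem_union_left _ hj, (hg11 i h j hj).2 h1, ?_⟩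
        rw [he1' i h, he1' j hj]; exact h2
      · obtain ⟨j, hj, h1, h2⟩ := hB.opp i h
        refine ⟨j, Finset.mem_union_right _ hj, (hg22 i h j hj).2 h1, ?_⟩
        rw [he2' i h, he2' j hj]; exact h2
    · intro i hi hiJ
      rw [Finset.mem_union, not_or] at hiJ
      exact hB.tors i (Finset.mem_sdiff.2 ⟨hi, hiJ.1⟩) hiJ.2
    · rintro ⟨q, w⟩ Q _ c hc
      rcases Nat.eq_zero_or_pos q with hq | hq
      · subst hq
        have h1 := hc0 w (fun _ => True)
        simp only [and_true] at h1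
        rw [h1]
        exact hdist1 w Q c hc
      · obtain ⟨q', rfl⟩ : ∃ q', q = q' + 1 := ⟨q - 1, by omega⟩
        have h1 := hcs q' w (fun _ => True)
        simp only [and_true] at h1
        rw [h1]
        exact hB.dist (q', w) Q c hc
    · rintro hco ⟨q, w⟩ n
      rcases Nat.eq_zero_or_pos q with hq | hq
      · subst hq
        rw [hc0 w (fun i => (e i).natAbs = n), ← hcop1 hco w n]
        refine Finset.sum_congr (Finset.filter_congr fun i hi => ?_) fun i hi => ?_
        · rw [he1' i hi]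
        · rw [he1' i (mem_filter.1 hi).1]
      · obtain ⟨q', rfl⟩ : ∃ q', q = q' + 1 := ⟨q - 1, by omega⟩
        rw [hcs q' w (fun i => (e i).natAbs = n), ← hB.cop hco (q', w) n]
        refine Finset.sum_congr (Finset.filter_congr fun i hi => ?_) fun i hi => ?_
        · rw [he2' i hi]
        · rw [he2' i (mem_filter.1 hi).1]

end Pool.Agent.K4H27.FT
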